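import Pool.Agent.W_59b51d_h35.Examples
import Pool.Agent.W_59b51d_h18.SChain2

/-!
# Single monomials of height at most five, and the fork condition
-/

namespace Pool.Agent.W_59b51d_h35

open Pool.Agent.W_59b51d_h18

/-- `s` is the subtree of `t` at the place `w`, a list of directions, the last step first
(`false` is the left factor, `true` the right factor). -/
def At (t : FreeMagma ℕ) : List Bool → FreeMagma ℕ → Prop
  | [], s => s = t
  | false :: w, s => ∃ b, At t w (s * b)
  | true :: w, s => ∃ a, At t w (a * s)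

theorem mul_inj' {a b c d : FreeMagma ℕ} (h : a * b = c * d) : a = c ∧ b = d := by
  have h' : FreeMagma.mul a b = FreeMagma.mul c d := h
  injection h' with x y
  exact ⟨x, y⟩

theorem at_unique {t : FreeMagma ℕ} : ∀ (w : List Bool) {s s' : FreeMagma ℕ},
    At t w s → At t w s' → s = s'
  | [], s, s', h, h' => by
    have e : s = t := h
    have e' : s' = t := h'
    rw [e, e']
  | false :: w, s, s', h, h' => by
    obtain ⟨b, hb⟩ := h
    obtain ⟨b', hb'⟩ := h'
    exact (mul_inj' (at_unique w hb hb')).1
  | true :: w, s, s', h, h' => by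
    obtain ⟨b, hb⟩ := h
    obtain ⟨b', hb'⟩ := h'
    exact (mul_inj' (at_unique w hb hb')).2

theorem at_height {t : FreeMagma ℕ} : ∀ (w : List Bool) {s : FreeMagma ℕ},
    At t w s → height s + w.length ≤ height t
  | [], s, h => by
    have e : s = t := h
    rw [e]
    simp
  | false :: w, s, h => by
    obtain ⟨b, hb⟩ := h
    have := at_height w hb
    rw [height_mul] at this
    rw [List.length_cons]
    omega
  | true :: w, s, h => by
    obtain ⟨b, hb⟩ := h
    have := at_height w hb
    rw [height_mul] at this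
    rw [List.length_cons]
    omega

/-- The members of a reachable set for a single monomial are the subtrees at initial segments of
one place. -/
theorem reach_single {t : FreeMagma ℕ} {S : Finset (FreeMagma ℕ)} (h : Reach [t] S) :
    ∃ w : List Bool, ∀ s, s ∈ S ∨ s ∈ [t] → ∃ u, u <+: w ∧ At t u s := by
  induction h with
  | empty =>
    refine ⟨[], fun s hs => ?_⟩
    rcases hs with hs | hs
    · exact absurd hs (Finset.notMem_empty _)
    · exact ⟨[], List.prefix_refl _, List.mem_singleton.1 hs⟩
  | left _ h ih =>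
    obtain ⟨w, hw⟩ := ih
    refine ⟨false :: w, fun s hs => ?_⟩
    rcases hs with hs | hs
    · obtain ⟨b, hb⟩ := h s hs
      obtain ⟨u, hu, hu'⟩ := hw _ hb
      exact ⟨false :: u, List.cons_prefix_cons.2 ⟨rfl, hu⟩, b, hu'⟩
    · exact ⟨[], List.nil_prefix, List.mem_singleton.1 hs⟩
  | right _ h ih =>
    obtain ⟨w, hw⟩ := ih
    refine ⟨true :: w, fun s hs => ?_⟩
    rcases hs with hs | hs
    · obtain ⟨b, hb⟩ := h s hs
      obtain ⟨u, hu, hu'⟩ := hw _ hb
      exact ⟨true :: u, List.cons_prefix_cons.2 ⟨rfl, hu⟩, b, hu'⟩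
    · exact ⟨[], List.nil_prefix, List.mem_singleton.1 hs⟩

/-- Two initial segments of the same length are equal. -/
theorem prefix_eq {u u' w : List Bool} (h : u <+: w) (h' : u' <+: w)
    (hl : u.length = u'.length) : u = u' := by
  rw [List.prefix_iff_eq_take] at h h'
  rw [h, h', hl]

/-- A monomial `t` of height at most `5` and its subtree at a place of length `2`, if the subtree
in between is a fork. -/
theorem comp_two {t : FreeMagma ℕ} (ht : height t ≤ 5) {w u u' : List Bool} (hu : u <+: w)
    (hu' : u' <+: w) (h1 : u.length = 1) (h2 : u'.length = 2) {a b c d v : FreeMagma ℕ}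
    (hm : Multilinear (c * d)) (hab : a * b = t) (hv : At t u v) (hvf : Fork v)
    (hcd : At t u' (c * d)) : Inst c a ∨ Inst d b := by
  have hh := at_height u' hcd
  rw [h2, height_mul] at hh
  obtain ⟨e, e', rfl⟩ : ∃ e e' : Bool, u' = [e, e'] := by
    match u', h2 with
    | [e, e'], _ => exact ⟨e, e', rfl⟩
  have hue : u = [e] := by
    match u, h1 with
    | [x], _ =>
      obtain ⟨l, rfl⟩ := hu
      have h3 : x :: l = [x] ++ l := rfl
      rw [← h3] at hu'
      rw [(List.cons_prefix_cons.1 hu').1]
  subst hue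
  cases e with
  | false =>
    obtain ⟨b', hb'⟩ := hv
    have e1 : v * b' = t := hb'
    have e2 : a = v := (mul_inj' (hab.trans e1.symm)).1
    rw [e2]
    exact Or.inl (inst_height2 (multilinear_left hm) (by omega) hvf)
  | true =>
    obtain ⟨b', hb'⟩ := hv
    have e1 : b' * v = t := hb'
    have e2 : b = v := (mul_inj' (hab.trans e1.symm)).2
    rw [e2]
    exact Or.inr (inst_height2 (multilinear_right hm) (by omega) hvf)

theorem fork_height {f : FreeMagma ℕ} (hf : Fork f) : 2 ≤ height f := by
  obtain ⟨a, b, c, d, rfl⟩ := hf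
  rw [height_mul, height_mul, height_mul]
  omega

/-- A single multilinear monomial of height at most `5` satisfies the two-cover condition. -/
theorem twoCover_single {t : FreeMagma ℕ} (ht : Multilinear t) (hh : height t ≤ 5) :
    TwoCover [t] := by
  intro S hS
  have hT : ∀ s ∈ [t], Multilinear s := fun s hs => by rw [List.mem_singleton.1 hs]; exact ht
  have hmem := reach_subs hS
  have hm : ∀ f, f ∈ S ∨ f ∈ [t] → Multilinear f := fun f hf => mult_allSubs hT f (hmem f hf)
  obtain ⟨w, hw⟩ := reach_single hS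
  by_cases h2 : ∃ g, (g ∈ S ∨ g ∈ [t]) ∧ Fork g ∧ height g ≤ 2
  · obtain ⟨g, hg, hgf, hgh⟩ := h2
    refine ⟨{g}, ∅, ?_, ?_, ?_, ?_⟩
    · intro a b c d h1 h2
      have e1 := Finset.mem_singleton.1 h1
      have e2 := Finset.mem_singleton.1 h2
      have e3 := mul_inj' (e1.trans e2.symm)
      refine ⟨g, Finset.mem_singleton_self g, Or.inl ?_⟩
      rw [← e3.2, e1]
      exact Inst.refl g
    · intro a b c d h1
      exact absurd h1 (Finset.notMem_empty _)
    · rintro f (hf | hf)
      · rw [Finset.mem_singleton.1 hf]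
        exact ⟨hg, hgf⟩
      · exact absurd hf (Finset.notMem_empty _)
    · intro f _ hf
      exact ⟨g, Or.inl (Finset.mem_singleton_self g), inst_height2 (hm g hg) hgh hf⟩
  · have h3 : ∀ g, g ∈ S ∨ g ∈ [t] → Fork g → 3 ≤ height g := by
      intro g hg hgf
      by_contra hcon
      exact h2 ⟨g, hg, hgf, by omega⟩
    -- equal monomials have comparable factors
    have heq : ∀ a b c d : FreeMagma ℕ, a * b = c * d →
        (Inst a c ∨ Inst c a) ∨ (Inst b d ∨ Inst d b) := by
      intro a b c d h
      rw [(mul_inj' h).1]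
      exact Or.inl (Or.inl (Inst.refl c))
    by_cases h1 : ∃ u, u <+: w ∧ u.length = 1 ∧ ∃ v, At t u v ∧ Fork v
    · obtain ⟨u, hu, hu1, v, hv, hvf⟩ := h1
      refine cover_of_colour hm (fun f => At t u f) ?_
      intro a b c d m1 m2 f1 f2 hk
      by_cases hk1 : At t u (a * b)
      · exact heq _ _ _ _ (at_unique u hk1 (hk.1 hk1))
      · have hk2 : ¬ At t u (c * d) := fun h => hk1 (hk.2 h)
        obtain ⟨p, hp, hp'⟩ := hw _ m1
        obtain ⟨q, hq, hq'⟩ := hw _ m2
        have lp := at_height p hp'
        have lq := at_height q hq'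
        have g1 := h3 _ m1 f1
        have g2 := h3 _ m2 f2
        have np : p.length ≠ 1 := fun h => hk1 (by
          rw [← prefix_eq hp hu (h.trans hu1.symm)]; exact hp')
        have nq : q.length ≠ 1 := fun h => hk2 (by
          rw [← prefix_eq hq hu (h.trans hu1.symm)]; exact hq')
        by_cases hpq : p.length = q.length
        · have := prefix_eq hp hq hpq
          subst this
          exact heq _ _ _ _ (at_unique p hp' hq')
        · have hcase : (p.length = 0 ∧ q.length = 2) ∨ (p.length = 2 ∧ q.length = 0) := by omega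
          rcases hcase with ⟨h4, h5⟩ | ⟨h4, h5⟩
          · have h6 : p = [] := List.length_eq_zero_iff.1 h4
            subst h6
            rcases comp_two hh hu hq hu1 h5 (hm _ m2) hp' hv hvf hq' with h7 | h7
            · exact Or.inl (Or.inr h7)
            · exact Or.inr (Or.inr h7)
          · have h6 : q = [] := List.length_eq_zero_iff.1 h5
            subst h6
            rcases comp_two hh hu hp hu1 h4 (hm _ m1) hq' hv hvf hp' with h7 | h7
            · exact Or.inl (Or.inl h7)
            · exact Or.inr (Or.inl h7)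
    · refine cover_of_colour hm (fun f => f = t) ?_
      intro a b c d m1 m2 f1 f2 hk
      by_cases hk1 : a * b = t
      · exact heq _ _ _ _ (hk1.trans (hk.1 hk1).symm)
      · have hk2 : ¬ c * d = t := fun h => hk1 (hk.2 h)
        obtain ⟨p, hp, hp'⟩ := hw _ m1
        obtain ⟨q, hq, hq'⟩ := hw _ m2
        have lp := at_height p hp'
        have lq := at_height q hq'
        have g1 := h3 _ m1 f1
        have g2 := h3 _ m2 f2
        have np : p.length ≠ 1 := fun h => h1 ⟨p, hp, h, _, hp', f1⟩
        have nq : q.length ≠ 1 := fun h => h1 ⟨q, hq, h, _, hq', f2⟩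
        have np0 : p.length ≠ 0 := fun h => hk1 (by
          have h6 : p = [] := List.length_eq_zero_iff.1 h
          subst h6
          exact hp')
        have nq0 : q.length ≠ 0 := fun h => hk2 (by
          have h6 : q = [] := List.length_eq_zero_iff.1 h
          subst h6
          exact hq')
        have hpq : p.length = q.length := by omega
        have := prefix_eq hp hq hpq
        subst this
        exact heq _ _ _ _ (at_unique p hp' hq')

/-- A set with at most one member is chainlike. -/
theorem chainlike_subsingleton {X : Finset (FreeMagma ℕ)} (h : ∀ f ∈ X, ∀ g ∈ X, f = g) :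
    Chainlike X := by
  intro a b c d h1 h2
  have e := mul_inj' (h _ h1 _ h2)
  refine ⟨a * b, h1, Or.inl ?_⟩
  rw [e.2]
  exact Inst.refl _

/-- The fork condition implies the two-cover condition. -/
theorem twoCover_of_forkCondition {T : List (FreeMagma ℕ)} (hT : ∀ t ∈ T, Multilinear t)
    (hf : ForkCondition T) : TwoCover T := by
  classical
  intro S hS
  have hmem := reach_subs hS
  have hm : ∀ f, f ∈ S ∨ f ∈ T → Multilinear f := fun f hf => mult_allSubs hT f (hmem f hf)
  obtain ⟨G, hG⟩ : ∃ G : Finset (FreeMagma ℕ), ∀ f, f ∈ G ↔ (f ∈ S ∨ f ∈ T) ∧ Fork f ∧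
      ∀ g, g ∈ S ∨ g ∈ T → ¬ Fork g → ¬ Inst g f := by
    refine ⟨(S ∪ T.toFinset).filter (fun f => Fork f ∧
      ∀ g, g ∈ S ∨ g ∈ T → ¬ Fork g → ¬ Inst g f), fun f => ?_⟩
    simp only [Finset.mem_filter, Finset.mem_union, List.mem_toFinset]
  obtain ⟨M, hMG, hanti, hcov⟩ := exists_antichain G
  have hM : ∀ f ∈ M, (f ∈ S ∨ f ∈ T) ∧ Fork f ∧
      ∀ g, g ∈ S ∨ g ∈ T → ¬ Fork g → ¬ Inst g f := fun f hf => (hG f).1 (hMG hf)
  have hMf : ∀ f ∈ M, IsFork T f := fun f hf => ⟨mem_allSubs.1 (hmem f (hM f hf).1), (hM f hf).2.1⟩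
  -- the cover clause
  have cov : ∀ X1 X2 : Finset (FreeMagma ℕ), (∀ f ∈ M, f ∈ X1 ∨ f ∈ X2) →
      ∀ f, f ∈ S ∨ f ∈ T → Fork f →
        ∃ g, (g ∈ X1 ∨ g ∈ X2 ∨ ((g ∈ S ∨ g ∈ T) ∧ ¬ Fork g)) ∧ IsInst g f := by
    intro X1 X2 hX f hf hff
    by_cases h : f ∈ G
    · obtain ⟨σ, hσ, hi⟩ := hcov f h
      rcases hX σ hσ with h1 | h1
      · exact ⟨σ, Or.inl h1, hi⟩
      · exact ⟨σ, Or.inr (Or.inl h1), hi⟩
    · rw [hG] at h
      push Not at h
      obtain ⟨g, hg, hgf, hgi⟩ := h hf hff
      exact ⟨g, Or.inr (Or.inr ⟨hg, hgf⟩), hgi⟩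
  by_cases hcard : M.card ≤ 2
  · obtain ⟨M1, M2, hM12, hc1, hc2⟩ : ∃ M1 M2 : Finset (FreeMagma ℕ),
        M = M1 ∪ M2 ∧ M1.card ≤ 1 ∧ M2.card ≤ 1 := by
      rcases M.eq_empty_or_nonempty with rfl | ⟨p, hp⟩
      · exact ⟨∅, ∅, by simp, by simp, by simp⟩
      · refine ⟨{p}, M.erase p, ?_, by simp, ?_⟩
        · rw [← Finset.insert_eq, Finset.insert_erase hp]
        · rw [Finset.card_erase_of_mem hp]; omega
    refine ⟨M1, M2, chainlike_subsingleton fun p hp q hq => Finset.card_le_one.1 hc1 p hp q hq,
      chainlike_subsingleton fun p hp q hq => Finset.card_le_one.1 hc2 p hp q hq, ?_,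
      cov M1 M2 fun f hf => by rw [hM12] at hf; exact Finset.mem_union.1 hf⟩
    intro f hf
    have h1 : f ∈ M := by rw [hM12]; exact Finset.mem_union.2 hf
    exact ⟨(hM f h1).1, (hM f h1).2.1⟩
  · have hchain : Chainlike M := by
      intro a b c d h1 h2
      by_cases heq : a * b = c * d
      · refine ⟨a * b, h1, Or.inl ?_⟩
        rw [(mul_inj' heq).2]
        rw [(mul_inj' heq).2] at h1
        exact Inst.refl _
      · obtain ⟨k, hk, hk1, hk2⟩ : ∃ k ∈ M, k ≠ a * b ∧ k ≠ c * d := by
          by_contra hcon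
          push Not at hcon
          have : M ⊆ {a * b, c * d} := by
            intro k hk
            rw [Finset.mem_insert, Finset.mem_singleton]
            by_cases h : k = a * b
            · exact Or.inl h
            · exact Or.inr (hcon k hk h)
          have h3 := (Finset.card_le_card this).trans Finset.card_le_two
          omega
        -- instances of members of `T`
        have hinst : ∀ x y : FreeMagma ℕ, (x = a ∨ x = c) → (y = b ∨ y = d) →
            (∃ t ∈ T, Inst t (x * y)) → ∃ m ∈ M, Inst m (x * y) := by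
          intro x y hx hy ht
          -- non-forks are excluded
          have hno : ∀ g, g ∈ S ∨ g ∈ T → ¬ Fork g → ¬ Inst g (x * y) := by
            intro g hg hgf hgi
            have hxf : ∃ z, x * z ∈ M := by
              rcases hx with rfl | rfl
              · exact ⟨b, h1⟩
              · exact ⟨d, h2⟩
            have hyf : ∃ z, z * y ∈ M := by
              rcases hy with rfl | rfl
              · exact ⟨a, h1⟩
              · exact ⟨c, h2⟩
            obtain ⟨z, hz⟩ := hxf
            obtain ⟨z', hz'⟩ := hyf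
            cases g with
            | of i => exact (hM _ hz).2.2 _ hg hgf (inst_of i _)
            | mul p q =>
              have hfac : Inst p x ∧ Inst q y := Inst.factors hgi
              cases p with
              | of i =>
                exact (hM _ hz').2.2 _ hg hgf (inst_mul (hm _ hg) (inst_of i _) hfac.2)
              | mul p1 p2 =>
                cases q with
                | of i =>
                  exact (hM _ hz).2.2 _ hg hgf (inst_mul (hm _ hg) hfac.1 (inst_of i _))
                | mul q1 q2 => exact hgf ⟨p1, p2, q1, q2, rfl⟩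
          obtain ⟨t, htT, hti⟩ := ht
          by_cases htG : t ∈ G
          · obtain ⟨σ, hσ, hi⟩ := hcov t htG
            exact ⟨σ, hσ, hi.trans hti⟩
          · exfalso
            by_cases htf : Fork t
            · rw [hG] at htG
              push Not at htG
              obtain ⟨g, hg, hgf, hgi⟩ := htG (Or.inr htT) htf
              exact hno g hg hgf (hgi.trans hti)
            · exact hno t (Or.inr htT) htf hti
        rcases hf a b c d k (hMf _ h1) (hMf _ h2) (hMf _ hk)
          (fun h => heq (hanti _ h1 _ h2 h)) (fun h => heq (hanti _ h2 _ h1 h).symm)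
          (fun h => hk1 (hanti _ h1 _ hk h).symm) (fun h => hk1 (hanti _ hk _ h1 h))
          (fun h => hk2 (hanti _ h2 _ hk h).symm) (fun h => hk2 (hanti _ hk _ h2 h)) with
          (h3 | h3) | (h3 | h3) | ⟨t, ht, h3 | h3⟩
        · exact ⟨a * b, h1, Or.inr (inst_mul (hm _ (hM _ h1).1) h3 (Inst.refl b))⟩
        · exact ⟨c * d, h2, Or.inl (inst_mul (hm _ (hM _ h2).1) h3 (Inst.refl d))⟩
        · exact ⟨a * b, h1, Or.inl (inst_mul (hm _ (hM _ h1).1) (Inst.refl a) h3)⟩
        · exact ⟨c * d, h2, Or.inr (inst_mul (hm _ (hM _ h2).1) (Inst.refl c) h3)⟩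
        · obtain ⟨m, hm1, hm2⟩ := hinst a d (Or.inl rfl) (Or.inr rfl) ⟨t, ht, h3⟩
          exact ⟨m, hm1, Or.inl hm2⟩
        · obtain ⟨m, hm1, hm2⟩ := hinst c b (Or.inr rfl) (Or.inl rfl) ⟨t, ht, h3⟩
          exact ⟨m, hm1, Or.inr hm2⟩
    refine ⟨M, M, hchain, hchain, ?_, cov M M fun f hf => Or.inl hf⟩
    rintro f (hf | hf)
    · exact ⟨(hM f hf).1, (hM f hf).2.1⟩
    · exact ⟨(hM f hf).1, (hM f hf).2.1⟩

end Pool.Agent.W_59b51d_h35
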