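import Pool.Agent.W_59b51d_h35.Rho
import Pool.Agent.W_59b51d_h18.SChain

/-!
# The bilinear map of the induction step for two chainlike sets of forks
-/

namespace Pool.Agent.W_59b51d_h35

open Pool.Agent.W_59b51d_h18

/-- Pairs of factors. -/
abbrev Prs : Type := Finset (FreeMagma ℕ × FreeMagma ℕ)

/-- Any two members of `X` have a common upper bound of the crossed products. -/
def ChainP (X : Prs) : Prop := ∀ p ∈ X, ∀ q ∈ X, ∃ m ∈ X,
  (Inst m.1 p.1 ∧ Inst m.2 q.2) ∨ (Inst m.1 q.1 ∧ Inst m.2 p.2)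

open Classical in
/-- The right factors which go with the left factor of `p`. -/
noncomputable def Jset (X : Prs) (p : FreeMagma ℕ × FreeMagma ℕ) : Finset (FreeMagma ℕ) :=
  (X.image Prod.snd).filter fun β => ∃ m ∈ X, Inst m.1 p.1 ∧ Inst m.2 β

open Classical in
/-- The left factors which go with `Jset X p`. -/
noncomputable def Iset (X : Prs) (p : FreeMagma ℕ × FreeMagma ℕ) : Finset (FreeMagma ℕ) :=
  (X.filter fun q => Jset X p ⊆ Jset X q).image Prod.fst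

variable {X : Prs}

theorem mem_Jset {p : FreeMagma ℕ × FreeMagma ℕ} {β : FreeMagma ℕ} :
    β ∈ Jset X p ↔ (∃ q ∈ X, q.2 = β) ∧ ∃ m ∈ X, Inst m.1 p.1 ∧ Inst m.2 β := by
  classical
  unfold Jset
  rw [Finset.mem_filter, Finset.mem_image]

theorem mem_Iset {p : FreeMagma ℕ × FreeMagma ℕ} {α : FreeMagma ℕ} :
    α ∈ Iset X p ↔ ∃ q ∈ X, q.1 = α ∧ Jset X p ⊆ Jset X q := by
  classical
  unfold Iset
  rw [Finset.mem_image]
  constructor
  · rintro ⟨q, hq, rfl⟩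
    obtain ⟨h1, h2⟩ := Finset.mem_filter.1 hq
    exact ⟨q, h1, rfl, h2⟩
  · rintro ⟨q, h1, rfl, h2⟩
    exact ⟨q, Finset.mem_filter.2 ⟨h1, h2⟩, rfl⟩

theorem self_mem_Jset {p : FreeMagma ℕ × FreeMagma ℕ} (hp : p ∈ X) : p.2 ∈ Jset X p :=
  mem_Jset.2 ⟨⟨p, hp, rfl⟩, p, hp, Inst.refl _, Inst.refl _⟩

theorem self_mem_Iset {p : FreeMagma ℕ × FreeMagma ℕ} (hp : p ∈ X) : p.1 ∈ Iset X p :=
  mem_Iset.2 ⟨p, hp, rfl, Finset.Subset.refl _⟩

theorem Iset_anti {p q : FreeMagma ℕ × FreeMagma ℕ} (h : Jset X p ⊆ Jset X q) :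
    Iset X q ⊆ Iset X p := by
  intro α hα
  obtain ⟨q', h1, h2, h3⟩ := mem_Iset.1 hα
  exact mem_Iset.2 ⟨q', h1, h2, h.trans h3⟩

/-- The sets `Jset` are nested. -/
theorem Jset_nested (hX : ChainP X) (p q : FreeMagma ℕ × FreeMagma ℕ) :
    Jset X p ⊆ Jset X q ∨ Jset X q ⊆ Jset X p := by
  by_contra hcon
  push Not at hcon
  obtain ⟨h1, h2⟩ := hcon
  obtain ⟨β, hβ, hβq⟩ := Finset.not_subset.1 h1
  obtain ⟨δ, hδ, hδp⟩ := Finset.not_subset.1 h2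
  obtain ⟨hβX, p', hp', k1, k2⟩ := mem_Jset.1 hβ
  obtain ⟨hδX, q', hq', k3, k4⟩ := mem_Jset.1 hδ
  obtain ⟨m, hm, h | h⟩ := hX p' hp' q' hq'
  · exact hδp (mem_Jset.2 ⟨hδX, m, hm, h.1.trans k1, h.2.trans k4⟩)
  · exact hβq (mem_Jset.2 ⟨hβX, m, hm, h.1.trans k3, h.2.trans k2⟩)

open Classical in
/-- The family of the left sets. -/
noncomputable def LF (T1 : Finset (FreeMagma ℕ)) (X : Prs) : Finset (Finset (FreeMagma ℕ)) :=
  insert T1 (X.image fun p => T1 ∪ Iset X p)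

open Classical in
/-- The family of the right sets. -/
noncomputable def RF (T2 : Finset (FreeMagma ℕ)) (X : Prs) : Finset (Finset (FreeMagma ℕ)) :=
  insert T2 (X.image fun p => T2 ∪ Jset X p)

theorem LF_chain (hX : ChainP X) (T1 : Finset (FreeMagma ℕ)) :
    ∀ L ∈ LF T1 X, ∀ L' ∈ LF T1 X, L ⊆ L' ∨ L' ⊆ L := by
  classical
  intro U hU U' hU'
  unfold LF at hU hU'
  rcases Finset.mem_insert.1 hU with rfl | hU
  · left
    rcases Finset.mem_insert.1 hU' with rfl | hU'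
    · exact Finset.Subset.refl _
    · obtain ⟨p, -, rfl⟩ := Finset.mem_image.1 hU'
      exact Finset.subset_union_left
  · obtain ⟨p, hp, rfl⟩ := Finset.mem_image.1 hU
    rcases Finset.mem_insert.1 hU' with rfl | hU'
    · right
      exact Finset.subset_union_left
    · obtain ⟨q, hq, rfl⟩ := Finset.mem_image.1 hU'
      rcases Jset_nested hX p q with h | h
      · exact Or.inr (Finset.union_subset_union_right (Iset_anti h))
      · exact Or.inl (Finset.union_subset_union_right (Iset_anti h))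

theorem RF_chain (hX : ChainP X) (T2 : Finset (FreeMagma ℕ)) :
    ∀ L ∈ RF T2 X, ∀ L' ∈ RF T2 X, L ⊆ L' ∨ L' ⊆ L := by
  classical
  intro U hU U' hU'
  unfold RF at hU hU'
  rcases Finset.mem_insert.1 hU with rfl | hU
  · left
    rcases Finset.mem_insert.1 hU' with rfl | hU'
    · exact Finset.Subset.refl _
    · obtain ⟨p, -, rfl⟩ := Finset.mem_image.1 hU'
      exact Finset.subset_union_left
  · obtain ⟨p, hp, rfl⟩ := Finset.mem_image.1 hU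
    rcases Finset.mem_insert.1 hU' with rfl | hU'
    · right
      exact Finset.subset_union_left
    · obtain ⟨q, hq, rfl⟩ := Finset.mem_image.1 hU'
      rcases Jset_nested hX p q with h | h
      · exact Or.inl (Finset.union_subset_union_right h)
      · exact Or.inr (Finset.union_subset_union_right h)

/-- The members of the left sets. -/
theorem mem_LF {T1 : Finset (FreeMagma ℕ)} {L : Finset (FreeMagma ℕ)} (hL : L ∈ LF T1 X)
    {α : FreeMagma ℕ} (hα : α ∈ L) : α ∈ T1 ∨ ∃ q ∈ X, q.1 = α := by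
  classical
  unfold LF at hL
  rcases Finset.mem_insert.1 hL with rfl | hL
  · exact Or.inl hα
  · obtain ⟨p, -, rfl⟩ := Finset.mem_image.1 hL
    rcases Finset.mem_union.1 hα with h | h
    · exact Or.inl h
    · obtain ⟨q, h1, h2, -⟩ := mem_Iset.1 h
      exact Or.inr ⟨q, h1, h2⟩

/-- The members of the right sets. -/
theorem mem_RF {T2 : Finset (FreeMagma ℕ)} {L : Finset (FreeMagma ℕ)} (hL : L ∈ RF T2 X)
    {β : FreeMagma ℕ} (hβ : β ∈ L) : β ∈ T2 ∨ ∃ q ∈ X, q.2 = β := by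
  classical
  unfold RF at hL
  rcases Finset.mem_insert.1 hL with rfl | hL
  · exact Or.inl hβ
  · obtain ⟨p, -, rfl⟩ := Finset.mem_image.1 hL
    rcases Finset.mem_union.1 hβ with h | h
    · exact Or.inl h
    · exact Or.inr (mem_Jset.1 h).1

/-- The combinatorial data of the induction step. -/
structure TwoData (T : List (FreeMagma ℕ)) (S T1 T2 : Finset (FreeMagma ℕ)) (X1 X2 : Prs) :
    Prop where
  t1 : ∀ α ∈ T1, ∃ i : ℕ, α * .of i ∈ S ∨ α * .of i ∈ T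
  t2 : ∀ β ∈ T2, ∃ i : ℕ, .of i * β ∈ S ∨ .of i * β ∈ T
  m1 : ∀ p ∈ X1, p.1 * p.2 ∈ S ∨ p.1 * p.2 ∈ T
  m2 : ∀ p ∈ X2, p.1 * p.2 ∈ S ∨ p.1 * p.2 ∈ T
  c1 : ChainP X1
  c2 : ChainP X2
  cov : ∀ τ, τ ∈ S ∨ τ ∈ T → ∃ α β, τ = α * β ∧ ((∃ γ ∈ T1, Inst γ α) ∨ (∃ γ ∈ T2, Inst γ β) ∨
    (∃ p ∈ X1, Inst p.1 α ∧ Inst p.2 β) ∨ ∃ p ∈ X2, Inst p.1 α ∧ Inst p.2 β)

section Beta

variable {F : Type} [Field F] {Y A : Type} [NonUnitalNonAssocRing A] [Module F A]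
  [IsScalarTower F A A] [SMulCommClass F A A] {T : List (FreeMagma ℕ)} {r : List (Poly F Y)}

/-- The product of elements of the spaces which go with a member of a chainlike set. -/
theorem mul_good (hmul : ∀ τ ∈ allSubs T, Multilinear τ) {K : ℕ}
    (hK : ∀ τ ∈ allSubs T, height τ + 1 ≤ K) (hK1 : 1 ≤ K) {N : ℕ}
    {S T1 T2 : Finset (FreeMagma ℕ)} (hS : ∀ τ, τ ∈ S ∨ τ ∈ T → τ ∈ allSubs T)
    (t1 : ∀ α ∈ T1, ∃ i : ℕ, α * .of i ∈ S ∨ α * .of i ∈ T)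
    (t2 : ∀ β ∈ T2, ∃ i : ℕ, .of i * β ∈ S ∨ .of i * β ∈ T)
    (hX : ∀ p ∈ X, p.1 * p.2 ∈ S ∨ p.1 * p.2 ∈ T) {p : FreeMagma ℕ × FreeMagma ℕ}
    {u v : NA F Y} (hv' : v ∈ Tr F Y N) (hu : u ∈ DD T r (T1 ∪ Iset X p) N)
    (hv : v ∈ DD T r (T2 ∪ Jset X p) N) : mulP F Y u v ∈ DD T r S (N + K) := by
  have hT1 : ∀ α ∈ T1, ∃ i : ℕ, (α * .of i ∈ S ∨ α * .of i ∈ T) ∧ Multilinear (α * .of i) := by
    intro α hα
    obtain ⟨i, hi⟩ := t1 α hα
    exact ⟨i, hi, hmul _ (hS _ hi)⟩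
  have hT2 : ∀ β ∈ T2, ∃ i : ℕ, (.of i * β ∈ S ∨ .of i * β ∈ T) ∧ Multilinear (.of i * β) := by
    intro β hβ
    obtain ⟨i, hi⟩ := t2 β hβ
    exact ⟨i, hi, hmul _ (hS _ hi)⟩
  refine mul_DD_left hK1 hT1 hv' ?_ hu
  intro α₀ hα₀ c hc
  obtain ⟨q', hq', rfl, hsub⟩ := mem_Iset.1 hα₀
  refine mul_L1' hT2 ?_ (hK _ (factors_mem_allSubs (hS _ (hX q' hq'))).1) hc hv
  intro β₀ hβ₀
  obtain ⟨⟨q, hq, hq2⟩, m, hm, h1, h2⟩ := mem_Jset.1 (hsub hβ₀)
  refine ⟨?_, m.1, m.2, hX m hm, hmul _ (hS _ (hX m hm)), h1, h2⟩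
  rw [← hq2]
  exact hK _ (factors_mem_allSubs (hS _ (hX q hq))).2

/-- The bilinear map of the induction step. -/
theorem exists_beta_two {a : Y → A} (hmul : ∀ τ ∈ allSubs T, Multilinear τ) {K : ℕ}
    (hK : ∀ τ ∈ allSubs T, height τ + 1 ≤ K) (hK1 : 1 ≤ K) {h N : ℕ} (hN : h ≤ N)
    {S T1 T2 : Finset (FreeMagma ℕ)} {X1 X2 : Prs} (hS : ∀ τ, τ ∈ S ∨ τ ∈ T → τ ∈ allSubs T)
    (data : TwoData T S T1 T2 X1 X2)
    (IHl : ∀ L : Finset (FreeMagma ℕ), (∀ α ∈ L, ∃ β, α * β ∈ S ∨ α * β ∈ T) →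
      Bd F T r a L h N)
    (IHr : ∀ L : Finset (FreeMagma ℕ), (∀ β ∈ L, ∃ α, α * β ∈ S ∨ α * β ∈ T) →
      Bd F T r a L h N)
    {s : A →ₗ[F] NA F Y} (hs : ∀ v ∈ Submodule.map (ev F a) (Tr F Y h),
      s v ∈ Tr F Y h ∧ ev F a (s v) = v) :
    ∃ β : A →ₗ[F] A →ₗ[F] (NA F Y ⧸ DD T r S (N + (K + K))),
      (∀ v ∈ Submodule.map (ev F a) (Tr F Y h), ∀ v' ∈ Submodule.map (ev F a) (Tr F Y h),
        β v v' = Submodule.Quotient.mk (mulP F Y (s v) (s v'))) ∧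
      ∀ α β' : FreeMagma ℕ, α * β' ∈ S ∨ α * β' ∈ T → ∀ u ∈ AS F A α, ∀ v ∈ AS F A β', β u v = 0 := by
  classical
  -- members of the families
  have hl : ∀ (X : Prs), (∀ p ∈ X, p.1 * p.2 ∈ S ∨ p.1 * p.2 ∈ T) → ∀ L ∈ LF T1 X, ∀ α ∈ L,
      ∃ β, α * β ∈ S ∨ α * β ∈ T := by
    intro X hX L hL α hα
    rcases mem_LF hL hα with h | ⟨q, hq, rfl⟩
    · obtain ⟨i, hi⟩ := data.t1 α h
      exact ⟨_, hi⟩
    · exact ⟨_, hX q hq⟩
  have hr : ∀ (X : Prs), (∀ p ∈ X, p.1 * p.2 ∈ S ∨ p.1 * p.2 ∈ T) → ∀ L ∈ RF T2 X, ∀ β ∈ L,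
      ∃ α, α * β ∈ S ∨ α * β ∈ T := by
    intro X hX L hL β hβ
    rcases mem_RF hL hβ with h | ⟨q, hq, rfl⟩
    · obtain ⟨i, hi⟩ := data.t2 β h
      exact ⟨_, hi⟩
    · exact ⟨_, hX q hq⟩
  have hKl : ∀ α : FreeMagma ℕ, (∃ β, α * β ∈ S ∨ α * β ∈ T) → height α ≤ K := by
    rintro α ⟨β, hβ⟩
    have := hK _ (factors_mem_allSubs (hS _ hβ)).1
    omega
  have hKr : ∀ β : FreeMagma ℕ, (∃ α, α * β ∈ S ∨ α * β ∈ T) → height β ≤ K := by
    rintro β ⟨α, hα⟩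
    have := hK _ (factors_mem_allSubs (hS _ hα)).2
    omega
  have ih0 : Bd F T r a ∅ h N := IHl ∅ fun α hα => absurd hα (Finset.notMem_empty α)
  obtain ⟨ρ₁, a1, a2, a3, a4⟩ := exists_rho (F := F) (a := a) (K := K) (by omega : h ≤ N + K)
    (LF T1 X1) (LF T1 X2)
    (fun L hL τ hτ => hKl τ (hl X1 data.m1 L hL τ hτ))
    (fun L hL τ hτ => hKl τ (hl X2 data.m2 L hL τ hτ))
    (LF_chain data.c1 T1) (LF_chain data.c2 T1) ih0
    (fun L hL => IHl L (hl X1 data.m1 L hL)) (fun L hL => IHl L (hl X2 data.m2 L hL))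
    (fun L hL L' hL' => IHl _ fun α hα => (Finset.mem_union.1 hα).elim
      (hl X1 data.m1 L hL α) (hl X2 data.m2 L' hL' α))
  obtain ⟨ρ₂, b1, b2, b3, b4⟩ := exists_rho (F := F) (a := a) (K := K) (by omega : h ≤ N + K)
    (RF T2 X1) (RF T2 X2)
    (fun L hL τ hτ => hKr τ (hr X1 data.m1 L hL τ hτ))
    (fun L hL τ hτ => hKr τ (hr X2 data.m2 L hL τ hτ))
    (RF_chain data.c1 T2) (RF_chain data.c2 T2) ih0
    (fun L hL => IHr L (hr X1 data.m1 L hL)) (fun L hL => IHr L (hr X2 data.m2 L hL))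
    (fun L hL L' hL' => IHr _ fun α hα => (Finset.mem_union.1 hα).elim
      (hr X1 data.m1 L hL α) (hr X2 data.m2 L' hL' α))
  have e0 : N + (K + K) = N + K + K := by omega
  rw [e0]
  let q : NA F Y →ₗ[F] (NA F Y ⧸ DD T r S (N + K + K)) := (DD T r S (N + K + K)).mkQ
  let β : A →ₗ[F] A →ₗ[F] (NA F Y ⧸ DD T r S (N + K + K)) :=
    ((mulP F Y).compl₁₂ ρ₁ ρ₂).compr₂ q
  have hβ : ∀ u v, β u v = Submodule.Quotient.mk (mulP F Y (ρ₁ u) (ρ₂ v)) := fun u v => rfl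
  refine ⟨β, fun v hv v' hv' => ?_, ?_⟩
  · rw [hβ, Submodule.Quotient.eq]
    obtain ⟨s1, s2⟩ := hs v hv
    obtain ⟨s3, s4⟩ := hs v' hv'
    have d1 : ρ₁ v - s v ∈ Cons T r N := by
      have := a1 (s v) s1
      rwa [s2] at this
    have d2 : ρ₂ v' - s v' ∈ Cons T r N := by
      have := b1 (s v') s3
      rwa [s4] at this
    have e : mulP F Y (ρ₁ v) (ρ₂ v') - mulP F Y (s v) (s v') =
        mulP F Y (ρ₁ v - s v) (ρ₂ v') + mulP F Y (s v) (ρ₂ v' - s v') := by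
      simp only [map_sub, LinearMap.sub_apply]
      abel
    rw [e]
    have g1 : mulP F Y (ρ₁ v - s v) (ρ₂ v') ∈ Cons T r (N + K + 1) :=
      Cons_mulP (Cons_mono (by omega) d1) (b2 v')
    have g2 : mulP F Y (s v) (ρ₂ v' - s v') ∈ Cons T r (N + K + 1) :=
      mulP_Cons (Tr_mono (by omega) s1) (Cons_mono (by omega) d2)
    exact Cons_le_DD (Cons_mono (by omega) (add_mem g1 g2))
  · intro α β' hαβ u hu v hv
    rw [hβ, Submodule.Quotient.mk_eq_zero]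
    obtain ⟨α₁, β₁, heq, hc⟩ := data.cov _ hαβ
    have hα₁ : α = α₁ ∧ β' = β₁ := by
      injection heq with h1 h2
      exact ⟨h1, h2⟩
    obtain ⟨rfl, rfl⟩ := hα₁
    have hT1 : ∀ α ∈ T1, ∃ i : ℕ, (α * .of i ∈ S ∨ α * .of i ∈ T) ∧ Multilinear (α * .of i) := by
      intro α hα
      obtain ⟨i, hi⟩ := data.t1 α hα
      exact ⟨i, hi, hmul _ (hS _ hi)⟩
    have hT2 : ∀ β ∈ T2, ∃ i : ℕ, (.of i * β ∈ S ∨ .of i * β ∈ T) ∧ Multilinear (.of i * β) := by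
      intro β hβ
      obtain ⟨i, hi⟩ := data.t2 β hβ
      exact ⟨i, hi, hmul _ (hS _ hi)⟩
    have hNK : N ≤ N + K := Nat.le_add_right _ _
    rcases hc with ⟨γ, hc, hγ⟩ | ⟨γ, hc, hγ⟩ | ⟨p, hp, hi, hi'⟩ | ⟨p, hp, hi, hi'⟩
    · refine mul_DD_left (L := ∅) hK1 hT1 (b2 v)
        (fun α hα => absurd hα (Finset.notMem_empty α)) ?_
      rw [Finset.union_empty]
      exact DD_mono hNK (a3 T1 (by unfold LF; exact Finset.mem_insert_self _ _) u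
        (AS_le_SS hc (hγ.AS_le hu)))
    · refine mul_DD_right (L := ∅) hK1 hT2 (a2 u)
        (fun α hα => absurd hα (Finset.notMem_empty α)) ?_
      rw [Finset.union_empty]
      exact DD_mono hNK (b3 T2 (by unfold RF; exact Finset.mem_insert_self _ _) v
        (AS_le_SS hc (hγ.AS_le hv)))
    · refine mul_good (X := X1) hmul hK hK1 hS data.t1 data.t2 data.m1 (p := p) (b2 v)
        (DD_mono hNK (a3 _ ?_ u (AS_le_SS (Finset.mem_union_right _ (self_mem_Iset hp))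
          (hi.AS_le hu))))
        (DD_mono hNK (b3 _ ?_ v (AS_le_SS (Finset.mem_union_right _ (self_mem_Jset hp))
          (hi'.AS_le hv))))
      · unfold LF
        exact Finset.mem_insert_of_mem (Finset.mem_image.2 ⟨p, hp, rfl⟩)
      · unfold RF
        exact Finset.mem_insert_of_mem (Finset.mem_image.2 ⟨p, hp, rfl⟩)
    · refine mul_good (X := X2) hmul hK hK1 hS data.t1 data.t2 data.m2 (p := p) (b2 v)
        (DD_mono hNK (a4 _ ?_ u (AS_le_SS (Finset.mem_union_right _ (self_mem_Iset hp))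
          (hi.AS_le hu))))
        (DD_mono hNK (b4 _ ?_ v (AS_le_SS (Finset.mem_union_right _ (self_mem_Jset hp))
          (hi'.AS_le hv))))
      · unfold LF
        exact Finset.mem_insert_of_mem (Finset.mem_image.2 ⟨p, hp, rfl⟩)
      · unfold RF
        exact Finset.mem_insert_of_mem (Finset.mem_image.2 ⟨p, hp, rfl⟩)

end Beta

end Pool.Agent.W_59b51d_h35
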