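import Pool.Agent.W_59b51d_h18.Defs

/-!
# The two-cover condition
-/

namespace Pool.Agent.W_59b51d_h35

open Pool.Agent.W_59b51d_h18

/-- `t` is an instance of `s`: it is obtained from `s` by substituting monomials for the
variables. -/
def IsInst (s t : FreeMagma ℕ) : Prop := ∃ c : ℕ → FreeMagma ℕ, FreeMagma.lift c s = t

/-- A fork is a product of two products. -/
def Fork (f : FreeMagma ℕ) : Prop := ∃ a b c d : FreeMagma ℕ, f = (a * b) * (c * d)

/-- The reachable sets for the finite list `T` of monomials: the empty set is reachable, and if `S`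
is reachable then every set of left factors of members of `S ∪ T` is reachable, and every set of
right factors of members of `S ∪ T` is reachable. -/
inductive Reach (T : List (FreeMagma ℕ)) : Finset (FreeMagma ℕ) → Prop
  | empty : Reach T ∅
  | left {S S' : Finset (FreeMagma ℕ)} :
      Reach T S → (∀ a ∈ S', ∃ b, a * b ∈ S ∨ a * b ∈ T) → Reach T S'
  | right {S S' : Finset (FreeMagma ℕ)} :
      Reach T S → (∀ b ∈ S', ∃ a, a * b ∈ S ∨ a * b ∈ T) → Reach T S'

/-- A set of monomials is chainlike if for any two members `a * b` and `c * d` one of the crossed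
products `a * d` and `c * b` is an instance of a member. -/
def Chainlike (X : Finset (FreeMagma ℕ)) : Prop :=
  ∀ a b c d : FreeMagma ℕ, a * b ∈ X → c * d ∈ X → ∃ m ∈ X, IsInst m (a * d) ∨ IsInst m (c * b)

/-- The two-cover condition: for every reachable set `S` there are two chainlike sets `X1` and `X2`
of forks in `S ∪ T` such that every fork in `S ∪ T` is an instance of a member of `X1 ∪ X2` or of a
member of `S ∪ T` which is not a fork. -/
def TwoCover (T : List (FreeMagma ℕ)) : Prop :=
  ∀ S, Reach T S → ∃ X1 X2 : Finset (FreeMagma ℕ), Chainlike X1 ∧ Chainlike X2 ∧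
    (∀ f, f ∈ X1 ∨ f ∈ X2 → (f ∈ S ∨ f ∈ T) ∧ Fork f) ∧
    ∀ f, f ∈ S ∨ f ∈ T → Fork f →
      ∃ g, (g ∈ X1 ∨ g ∈ X2 ∨ ((g ∈ S ∨ g ∈ T) ∧ ¬ Fork g)) ∧ IsInst g f

end Pool.Agent.W_59b51d_h35
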