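import Pool.Agent.W_59b51d_h35.Cond
import Pool.Agent.W_59b51d_h18.SForks
import Pool.Agent.W_59b51d_h18.SImage

/-!
# Monomials satisfying the two-cover condition
-/

namespace Pool.Agent.W_59b51d_h35

open Pool.Agent.W_59b51d_h18

/-- Everything is an instance of a variable. -/
theorem inst_of (i : ℕ) (t : FreeMagma ℕ) : Inst (FreeMagma.of i) t := ⟨fun _ => t, rfl⟩

/-- Products of instances. -/
theorem inst_mul {a b c d : FreeMagma ℕ} (h : Multilinear (a * b)) (h1 : Inst a c)
    (h2 : Inst b d) : Inst (a * b) (c * d) := by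
  obtain ⟨x, rfl⟩ := h1
  obtain ⟨y, rfl⟩ := h2
  obtain ⟨z, -, hz⟩ := exists_glue h x y
  exact ⟨z, hz⟩

theorem height_mul (a b : FreeMagma ℕ) : height (a * b) = max (height a) (height b) + 1 := rfl

theorem height_of (i : ℕ) : height (FreeMagma.of i) = 0 := rfl

/-- Every product is an instance of every multilinear monomial of height at most `1`. -/
theorem inst_height1 {u : FreeMagma ℕ} (hu : Multilinear u) (h : height u ≤ 1)
    (a b : FreeMagma ℕ) : Inst u (a * b) := by
  cases u with
  | of i => exact inst_of i _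
  | mul c d =>
    have h' : max (height c) (height d) + 1 ≤ 1 := h
    cases c with
    | of i =>
      cases d with
      | of j => exact inst_mul hu (inst_of _ _) (inst_of _ _)
      | mul d1 d2 =>
        have : height (FreeMagma.mul d1 d2) = max (height d1) (height d2) + 1 := rfl
        omega
    | mul c1 c2 =>
      have : height (FreeMagma.mul c1 c2) = max (height c1) (height c2) + 1 := rfl
      omega

/-- A multilinear monomial of height at most `1` is comparable with every monomial. -/
theorem comp_height1 {u : FreeMagma ℕ} (hu : Multilinear u) (h : height u ≤ 1)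
    (v : FreeMagma ℕ) : Inst u v ∨ Inst v u := by
  cases v with
  | of i => exact Or.inr (inst_of _ _)
  | mul a b => exact Or.inl (inst_height1 hu h a b)

/-- Every fork is an instance of every multilinear monomial of height at most `2`. -/
theorem inst_height2 {u : FreeMagma ℕ} (hu : Multilinear u) (h : height u ≤ 2)
    {f : FreeMagma ℕ} (hf : Fork f) : Inst u f := by
  obtain ⟨a, b, c, d, rfl⟩ := hf
  cases u with
  | of i => exact inst_of i _
  | mul p q =>
    have h' : max (height p) (height q) + 1 ≤ 2 := h
    exact inst_mul hu (inst_height1 (multilinear_left hu) (by omega) a b)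
      (inst_height1 (multilinear_right hu) (by omega) c d)

/-- A finite set of multilinear monomials, any two of which have comparable left factors or
comparable right factors, is chainlike. -/
theorem chainlike_of_comp {X : Finset (FreeMagma ℕ)} (hX : ∀ f ∈ X, Multilinear f)
    (h : ∀ a b c d : FreeMagma ℕ, a * b ∈ X → c * d ∈ X →
      (Inst a c ∨ Inst c a) ∨ (Inst b d ∨ Inst d b)) : Chainlike X := by
  intro a b c d h1 h2
  rcases h a b c d h1 h2 with (h3 | h3) | (h3 | h3)
  · exact ⟨a * b, h1, Or.inr (inst_mul (hX _ h1) h3 (Inst.refl b))⟩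
  · exact ⟨c * d, h2, Or.inl (inst_mul (hX _ h2) h3 (Inst.refl d))⟩
  · exact ⟨a * b, h1, Or.inl (inst_mul (hX _ h1) (Inst.refl a) h3)⟩
  · exact ⟨c * d, h2, Or.inr (inst_mul (hX _ h2) (Inst.refl c) h3)⟩

/-- The two-cover condition at `S` from a colouring of the forks with two colours. -/
theorem cover_of_colour {T : List (FreeMagma ℕ)} {S : Finset (FreeMagma ℕ)}
    (hm : ∀ f, f ∈ S ∨ f ∈ T → Multilinear f) (κ : FreeMagma ℕ → Prop)
    (h : ∀ a b c d : FreeMagma ℕ, (a * b ∈ S ∨ a * b ∈ T) → (c * d ∈ S ∨ c * d ∈ T) →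
      Fork (a * b) → Fork (c * d) → (κ (a * b) ↔ κ (c * d)) →
      (Inst a c ∨ Inst c a) ∨ (Inst b d ∨ Inst d b)) :
    ∃ X1 X2 : Finset (FreeMagma ℕ), Chainlike X1 ∧ Chainlike X2 ∧
      (∀ f, f ∈ X1 ∨ f ∈ X2 → (f ∈ S ∨ f ∈ T) ∧ Fork f) ∧
      ∀ f, f ∈ S ∨ f ∈ T → Fork f →
        ∃ g, (g ∈ X1 ∨ g ∈ X2 ∨ ((g ∈ S ∨ g ∈ T) ∧ ¬ Fork g)) ∧ IsInst g f := by
  classical
  obtain ⟨X, mem⟩ : ∃ X : (FreeMagma ℕ → Prop) → Finset (FreeMagma ℕ),
      ∀ (P : FreeMagma ℕ → Prop) (f : FreeMagma ℕ),
        f ∈ X P ↔ (f ∈ S ∨ f ∈ T) ∧ Fork f ∧ P f := by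
    refine ⟨fun P => (S ∪ T.toFinset).filter (fun f => Fork f ∧ P f), fun P f => ?_⟩
    simp only [Finset.mem_filter, Finset.mem_union, List.mem_toFinset]
  refine ⟨X κ, X (fun f => ¬ κ f), ?_, ?_, ?_, ?_⟩
  · refine chainlike_of_comp (fun f hf => hm f ((mem κ f).1 hf).1) fun a b c d h1 h2 => ?_
    obtain ⟨h1, f1, k1⟩ := (mem κ _).1 h1
    obtain ⟨h2, f2, k2⟩ := (mem κ _).1 h2
    exact h a b c d h1 h2 f1 f2 (iff_of_true k1 k2)
  · refine chainlike_of_comp (fun f hf => hm f ((mem (fun f => ¬ κ f) f).1 hf).1)
      fun a b c d h1 h2 => ?_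
    obtain ⟨h1, f1, k1⟩ := (mem (fun f => ¬ κ f) _).1 h1
    obtain ⟨h2, f2, k2⟩ := (mem (fun f => ¬ κ f) _).1 h2
    exact h a b c d h1 h2 f1 f2 (iff_of_false k1 k2)
  · rintro f (hf | hf)
    · exact ⟨((mem κ _).1 hf).1, ((mem κ _).1 hf).2.1⟩
    · exact ⟨((mem (fun f => ¬ κ f) _).1 hf).1, ((mem (fun f => ¬ κ f) _).1 hf).2.1⟩
  · intro f hf hfork
    refine ⟨f, ?_, Inst.refl f⟩
    by_cases hk : κ f
    · exact Or.inl ((mem κ _).2 ⟨hf, hfork, hk⟩)
    · exact Or.inr (Or.inl ((mem (fun f => ¬ κ f) _).2 ⟨hf, hfork, hk⟩))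

/-- Members of reachable sets are subtrees. -/
theorem reach_subs {T : List (FreeMagma ℕ)} {S : Finset (FreeMagma ℕ)} (h : Reach T S) :
    ∀ f, f ∈ S ∨ f ∈ T → f ∈ allSubs T := by
  have key : S ⊆ allSubs T := by
    induction h with
    | empty => exact Finset.empty_subset _
    | left _ h ih =>
      intro a ha
      obtain ⟨b, hb | hb⟩ := h a ha
      · exact (factors_mem_allSubs (ih hb)).1
      · exact (factors_mem_allSubs (mem_allSubs_self hb)).1
    | right _ h ih =>
      intro b hb'
      obtain ⟨a, hb | hb⟩ := h b hb'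
      · exact (factors_mem_allSubs (ih hb)).2
      · exact (factors_mem_allSubs (mem_allSubs_self hb)).2
  rintro f (hf | hf)
  · exact key hf
  · exact mem_allSubs_self hf

/-- Subtrees are multilinear. -/
theorem mult_allSubs {T : List (FreeMagma ℕ)} (hT : ∀ t ∈ T, Multilinear t) :
    ∀ f ∈ allSubs T, Multilinear f := by
  intro f hf
  obtain ⟨t, ht, hs⟩ := mem_allSubs.1 hf
  exact multilinear_of_mem_subs (hT t ht) hs

/-- The two-cover condition holds if every fork `a * b` has a left factor of height at most `2` or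
a right factor of height at most `1`. -/
theorem twoCover_of_low {T : List (FreeMagma ℕ)} (hT : ∀ t ∈ T, Multilinear t)
    (h : ∀ a b : FreeMagma ℕ, a * b ∈ allSubs T → Fork (a * b) → height a ≤ 2 ∨ height b ≤ 1) :
    TwoCover T := by
  intro S hS
  have hmem := reach_subs hS
  have hm : ∀ f, f ∈ S ∨ f ∈ T → Multilinear f := fun f hf => mult_allSubs hT f (hmem f hf)
  refine cover_of_colour hm
    (fun f => ∃ (i : ℕ) (p q : FreeMagma ℕ), f = (FreeMagma.of i * p) * q) ?_
  intro a b c d h1 h2 f1 f2 hk
  rcases h a b (hmem _ h1) f1 with ha | hb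
  · rcases h c d (hmem _ h2) f2 with hc | hd
    · -- both left factors have height at most `2`
      left
      obtain ⟨a1, a2, b1, b2, e1⟩ := f1
      obtain ⟨c1, c2, d1, d2, e2⟩ := f2
      obtain ⟨rfl, rfl⟩ : a = a1 * a2 ∧ b = b1 * b2 := by
        have e1' : FreeMagma.mul a b = FreeMagma.mul (a1 * a2) (b1 * b2) := e1
        injection e1' with x y
        exact ⟨x, y⟩
      obtain ⟨rfl, rfl⟩ : c = c1 * c2 ∧ d = d1 * d2 := by
        have e1' : FreeMagma.mul c d = FreeMagma.mul (c1 * c2) (d1 * d2) := e2
        injection e1' with x y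
        exact ⟨x, y⟩
      rw [height_mul] at ha hc
      have ma : Multilinear (a1 * a2) := multilinear_left (hm _ h1)
      have mc : Multilinear (c1 * c2) := multilinear_left (hm _ h2)
      have key : Inst a1 c1 ∧ Inst c1 a1 := by
        cases a1 with
        | of i =>
          have : ∃ (i' : ℕ) (p q : FreeMagma ℕ),
              (c1 * c2) * (d1 * d2) = (FreeMagma.of i' * p) * q :=
            hk.1 ⟨i, a2, b1 * b2, rfl⟩
          obtain ⟨i', p, q, e⟩ := this
          have e' : FreeMagma.mul (FreeMagma.mul c1 c2) (FreeMagma.mul d1 d2) =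
            FreeMagma.mul (FreeMagma.mul (FreeMagma.of i') p) q := e
          injection e' with e1 e2
          injection e1 with e3 e4
          rw [e3]
          exact ⟨inst_of _ _, inst_of _ _⟩
        | mul x y =>
          cases c1 with
          | of i =>
            have : ∃ (i' : ℕ) (p q : FreeMagma ℕ),
                (FreeMagma.mul x y * a2) * (b1 * b2) = (FreeMagma.of i' * p) * q :=
              hk.2 ⟨i, c2, d1 * d2, rfl⟩
            obtain ⟨i', p, q, e⟩ := this
            have e' : FreeMagma.mul (FreeMagma.mul (FreeMagma.mul x y) a2) (FreeMagma.mul b1 b2) =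
              FreeMagma.mul (FreeMagma.mul (FreeMagma.of i') p) q := e
            injection e' with e1 e2
            injection e1 with e3 e4
            cases e3
          | mul z w =>
            exact ⟨inst_height1 (multilinear_left ma) (by omega) _ _,
              inst_height1 (multilinear_left mc) (by omega) _ _⟩
      rcases comp_height1 (u := a2) (multilinear_right ma) (by omega) c2 with h3 | h3
      · exact Or.inl (inst_mul ma key.1 h3)
      · exact Or.inr (inst_mul mc key.2 h3)
    · exact Or.inr ((comp_height1 (multilinear_right (hm _ h2)) hd b).symm)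
  · exact Or.inr (comp_height1 (multilinear_right (hm _ h1)) hb d)

/-- The height of a subtree. -/
theorem height_subs {t s : FreeMagma ℕ} (h : s ∈ subs t) : height s ≤ height t := by
  induction t using FreeMagma.rec with
  | of i =>
    have h1 : s = FreeMagma.of i := List.mem_singleton.1 h
    rw [h1]
  | mul α β iα iβ =>
    have h1 : s ∈ (FreeMagma.mul α β) :: (subs α ++ subs β) := h
    have h0 : height (FreeMagma.mul α β) = max (height α) (height β) + 1 := rfl
    rcases List.mem_cons.1 h1 with h2 | h2
    · rw [h2]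
    · rcases List.mem_append.1 h2 with h3 | h3
      · have := iα h3
        omega
      · have := iβ h3
        omega

/-- The degree of a subtree. -/
theorem degree_subs {t s : FreeMagma ℕ} (h : s ∈ subs t) :
    (vars s).length ≤ (vars t).length := by
  induction t using FreeMagma.rec with
  | of i =>
    have h1 : s = FreeMagma.of i := List.mem_singleton.1 h
    rw [h1]
  | mul α β iα iβ =>
    have h1 : s ∈ (FreeMagma.mul α β) :: (subs α ++ subs β) := h
    have h0 : (vars (FreeMagma.mul α β)).length = (vars α).length + (vars β).length :=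
      List.length_append
    rcases List.mem_cons.1 h1 with h2 | h2
    · rw [h2]
    · rcases List.mem_append.1 h2 with h3 | h3
      · have := iα h3
        omega
      · have := iβ h3
        omega

/-- The degree is larger than the height. -/
theorem height_lt_degree (t : FreeMagma ℕ) : height t + 1 ≤ (vars t).length := by
  induction t using FreeMagma.rec with
  | of i =>
    have h1 : height (FreeMagma.of i) = 0 := rfl
    have h2 : (vars (FreeMagma.of i)).length = 1 := rfl
    omega
  | mul α β iα iβ =>
    have h0 : (vars (FreeMagma.mul α β)).length = (vars α).length + (vars β).length :=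
      List.length_append
    have h1 : height (FreeMagma.mul α β) = max (height α) (height β) + 1 := rfl
    omega

/-- Monomials of height at most `3` or degree at most `6`. -/
theorem twoCover_of_small {T : List (FreeMagma ℕ)} (hT : ∀ t ∈ T, Multilinear t)
    (h : ∀ t ∈ T, height t ≤ 3 ∨ (vars t).length ≤ 6) : TwoCover T := by
  refine twoCover_of_low hT fun a b hab _ => ?_
  obtain ⟨t, ht, hs⟩ := mem_allSubs.1 hab
  rcases h t ht with h1 | h1
  · have := height_subs hs
    rw [height_mul] at this
    omega
  · have h2 := degree_subs hs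
    have h3 := height_lt_degree a
    have h4 := height_lt_degree b
    have h5 : (vars (a * b)).length = (vars a).length + (vars b).length := List.length_append
    omega

end Pool.Agent.W_59b51d_h35
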