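import Pool.Agent.W_59b51d_h35.Cond
import Pool.Agent.W_59b51d_h35.BetaTwo
import Pool.Agent.W_59b51d_h18.SChain2

/-!
# The two-cover theorem
-/

namespace Pool.Agent.W_59b51d_h35

open Pool.Agent.W_59b51d_h18

theorem isInst_iff {s t : FreeMagma ℕ} : IsInst s t ↔ Inst s t := Iff.rfl

theorem reach_sub {T : List (FreeMagma ℕ)} {S : Finset (FreeMagma ℕ)} (h : Reach T S) :
    S ⊆ allSubs T := by
  induction h with
  | empty => exact Finset.empty_subset _
  | left _ h ih =>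
    intro a ha
    obtain ⟨b, hb | hb⟩ := h a ha
    · exact (factors_mem_allSubs (ih hb)).1
    · exact (factors_mem_allSubs (mem_allSubs_self hb)).1
  | right _ h ih =>
    intro b hb'
    obtain ⟨a, hb | hb⟩ := h b hb'
    · exact (factors_mem_allSubs (ih hb)).2
    · exact (factors_mem_allSubs (mem_allSubs_self hb)).2

/-- Existence of the data of the induction step. -/
theorem exists_twoData {T : List (FreeMagma ℕ)} (hcond : TwoCover T) {S : Finset (FreeMagma ℕ)}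
    (hS : Reach T S) (hx : ∀ τ, τ ∈ S ∨ τ ∈ T → ∃ α β : FreeMagma ℕ, τ = α * β) :
    ∃ (T1 T2 : Finset (FreeMagma ℕ)) (X1 X2 : Prs), TwoData T S T1 T2 X1 X2 := by
  classical
  have hM : ∀ τ, τ ∈ S ∨ τ ∈ T → τ ∈ allSubs T := by
    rintro τ (h | h)
    · exact reach_sub hS h
    · exact mem_allSubs_self h
  obtain ⟨X1, X2, c1, c2, hX, hcov⟩ := hcond S hS
  have hXm : ∀ Y : Finset (FreeMagma ℕ), (∀ f ∈ Y, f ∈ X1 ∨ f ∈ X2) → Chainlike Y →
      (∀ p ∈ Y.image factors, p.1 * p.2 ∈ S ∨ p.1 * p.2 ∈ T) ∧ ChainP (Y.image factors) := by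
    intro Y hY hc
    constructor
    · intro p hp
      obtain ⟨f, hf, rfl⟩ := Finset.mem_image.1 hp
      obtain ⟨h1, a, b, c, d, rfl⟩ := hX f (hY f hf)
      exact h1
    · intro p hp q hq
      obtain ⟨f, hf, rfl⟩ := Finset.mem_image.1 hp
      obtain ⟨g, hg, rfl⟩ := Finset.mem_image.1 hq
      obtain ⟨-, a, b, c, d, rfl⟩ := hX f (hY f hf)
      obtain ⟨-, a', b', c', d', rfl⟩ := hX g (hY g hg)
      obtain ⟨m, hm, h⟩ := hc (a * b) (c * d) (a' * b') (c' * d') hf hg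
      obtain ⟨-, x, y, z, w, rfl⟩ := hX m (hY m hm)
      refine ⟨factors ((x * y) * (z * w)), Finset.mem_image.2 ⟨_, hm, rfl⟩, ?_⟩
      rcases h with h | h
      · exact Or.inl (Inst.factors h)
      · exact Or.inr (Inst.factors h)
  obtain ⟨k1, k2⟩ := hXm X1 (fun f hf => Or.inl hf) c1
  obtain ⟨k3, k4⟩ := hXm X2 (fun f hf => Or.inr hf) c2
  let T1 := (allSubs T).filter fun α => ∃ i : ℕ, α * .of i ∈ S ∨ α * .of i ∈ T
  let T2 := (allSubs T).filter fun β => ∃ i : ℕ, .of i * β ∈ S ∨ .of i * β ∈ T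
  -- products which are not forks
  have hnf : ∀ α β : FreeMagma ℕ, (α * β ∈ S ∨ α * β ∈ T) → ¬ Fork (α * β) → α ∈ T1 ∨ β ∈ T2 := by
    intro α β hτ hf
    have hmem := factors_mem_allSubs (hM _ hτ)
    cases β with
    | of i => exact Or.inl (Finset.mem_filter.2 ⟨hmem.1, i, hτ⟩)
    | mul c d =>
      cases α with
      | of i => exact Or.inr (Finset.mem_filter.2 ⟨hmem.2, i, hτ⟩)
      | mul a b => exact absurd ⟨a, b, c, d, rfl⟩ hf
  refine ⟨T1, T2, X1.image factors, X2.image factors, ?_, ?_, k1, k3, k2, k4, ?_⟩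
  · exact fun α hα => (Finset.mem_filter.1 hα).2
  · exact fun β hβ => (Finset.mem_filter.1 hβ).2
  · intro τ hτ
    obtain ⟨α, β, rfl⟩ := hx τ hτ
    refine ⟨α, β, rfl, ?_⟩
    by_cases hf : Fork (α * β)
    · obtain ⟨g, hg, hi⟩ := hcov _ hτ hf
      rcases hg with hg | hg | ⟨hg, hgf⟩
      · obtain ⟨-, x, y, z, w, rfl⟩ := hX g (Or.inl hg)
        exact Or.inr (Or.inr (Or.inl ⟨factors ((x * y) * (z * w)),
          Finset.mem_image.2 ⟨_, hg, rfl⟩, Inst.factors hi⟩))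
      · obtain ⟨-, x, y, z, w, rfl⟩ := hX g (Or.inr hg)
        exact Or.inr (Or.inr (Or.inr ⟨factors ((x * y) * (z * w)),
          Finset.mem_image.2 ⟨_, hg, rfl⟩, Inst.factors hi⟩))
      · obtain ⟨γ, δ, rfl⟩ := hx g hg
        have hi' : Inst γ α ∧ Inst δ β := Inst.factors hi
        rcases hnf γ δ hg hgf with h | h
        · exact Or.inl ⟨γ, h, hi'.1⟩
        · exact Or.inr (Or.inl ⟨δ, h, hi'.2⟩)
    · rcases hnf α β hτ hf with h | h
      · exact Or.inl ⟨α, h, Inst.refl _⟩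
      · exact Or.inr (Or.inl ⟨β, h, Inst.refl _⟩)

section Algebra

variable {F : Type} [Field F] {X A : Type} [NonUnitalNonAssocRing A] [Module F A]
  [IsScalarTower F A A] [SMulCommClass F A A] {T : List (FreeMagma ℕ)} {r : List (Poly F X)}

/-- The induction step from the bilinear map. -/
theorem step_of_beta' {a : X → A} (hpres : IsPres F T r a) {K : ℕ} (hK1 : 1 ≤ K) {h N : ℕ}
    (hN : h ≤ N) (hr : ∀ p ∈ r, ∀ q ∈ p, height q.2 ≤ h + 1)
    (IH0 : Bd F T r a ∅ h N) {S : Finset (FreeMagma ℕ)}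
    (hx : ∀ τ, τ ∈ S ∨ τ ∈ T → ∃ α β : FreeMagma ℕ, τ = α * β)
    (hbeta : ∀ s : A →ₗ[F] NA F X, (∀ v ∈ Submodule.map (ev F a) (Tr F X h),
        s v ∈ Tr F X h ∧ ev F a (s v) = v) →
      ∃ β : A →ₗ[F] A →ₗ[F] (NA F X ⧸ DD T r S (N + K)),
      (∀ v ∈ Submodule.map (ev F a) (Tr F X h), ∀ v' ∈ Submodule.map (ev F a) (Tr F X h),
        β v v' = Submodule.Quotient.mk (mulP F X (s v) (s v'))) ∧
      ∀ α β' : FreeMagma ℕ, α * β' ∈ S ∨ α * β' ∈ T →
        ∀ u ∈ AS F A α, ∀ v ∈ AS F A β', β u v = 0) :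
    Bd F T r a S (h + 1) (N + K) := by
  intro w hw hwS
  obtain ⟨s, hs⟩ := exists_section F a h
  obtain ⟨β, hβ, hβ'⟩ := hbeta s hs
  have hDM := fun (w : NA F X) (hw : w ∈ Tr F X (h + 1)) =>
    DM_eq_mk (S := S) hN hK1 IH0 hs hβ hw
  obtain ⟨δ, hδ, hδ'⟩ := exists_delta hpres
    (fun x => (Submodule.Quotient.mk (tr F (FreeMagma.of x)) : NA F X ⧸ DD T r S (N + K))) β
    (fun t ht => by
      obtain ⟨α, β', rfl⟩ := hx t (Or.inr ht)
      exact ⟨α, β', rfl, hβ' α β' (Or.inr ht)⟩)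
    (fun p hp => by
      rw [hDM _ (toP_mem_Tr p (hr p hp)), Submodule.Quotient.mk_eq_zero]
      exact Cons_le_DD (Gen.mem (Gen.rel hp)))
  have hker : SS F A S ≤ LinearMap.ker δ := by
    refine iSup₂_le fun τ hτ => ?_
    obtain ⟨α, β', rfl⟩ := hx τ (Or.inl hτ)
    rw [AS_mul]
    refine Submodule.map₂_le.2 fun u hu v hv => ?_
    rw [LinearMap.mem_ker, LinearMap.mul_apply', hδ']
    exact hβ' α β' (Or.inl hτ) u hu v hv
  have h0 : δ (ev F a w) = 0 := hker hwS
  rw [hδ, hDM w hw, Submodule.Quotient.mk_eq_zero] at h0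
  exact h0

/-- **The induction step.** -/
theorem step2 {a : X → A} (hpres : IsPres F T r a) (hmul : ∀ τ ∈ allSubs T, Multilinear τ)
    (hcond : TwoCover T)
    {K : ℕ} (hK : ∀ τ ∈ allSubs T, height τ + 1 ≤ K) (hK1 : 1 ≤ K) {h N : ℕ} (hN : h ≤ N)
    (hr : ∀ p ∈ r, ∀ q ∈ p, height q.2 ≤ h + 1)
    (IH : ∀ S', Reach T S' → Bd F T r a S' h N) :
    ∀ S, Reach T S → Bd F T r a S (h + 1) (N + (K + K)) := by
  classical
  intro S hS
  by_cases hx : ∀ τ, τ ∈ S ∨ τ ∈ T → ∃ α β : FreeMagma ℕ, τ = α * β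
  · obtain ⟨T1, T2, X1, X2, data⟩ := exists_twoData hcond hS hx
    have hM : ∀ τ, τ ∈ S ∨ τ ∈ T → τ ∈ allSubs T := by
      rintro τ (h | h)
      · exact reach_sub hS h
      · exact mem_allSubs_self h
    exact step_of_beta' hpres (by omega) hN hr (IH ∅ Reach.empty) hx fun s hs =>
      exists_beta_two hmul hK hK1 hN hM data (fun L hL => IH L (Reach.left hS hL))
        (fun L hL => IH L (Reach.right hS hL)) hs
  · push Not at hx
    obtain ⟨τ, hτ, hne⟩ := hx
    cases τ with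
    | mul α β => exact absurd rfl (hne α β)
    | of i =>
      intro w hw _
      have : Tr F X (h + 1) ≤ DD T r S (N + (K + K)) := by
        refine Tr_le fun m hm => ?_
        exact tr_mem_DD' (c := fun _ => m) hτ fun _ => hm.trans (by omega)
      exact this hw

end Algebra

/-- **The linear bound for derivations.** -/
theorem exists_bound2 {F X : Type} [Field F] [Finite X] {T : List (FreeMagma ℕ)}
    (hT : ∀ t ∈ T, Multilinear t) (hcond : TwoCover T) (r : List (Poly F X)) :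
    ∃ c K : ℕ, ∀ (h : ℕ) (w : Poly F X), (∀ q ∈ w, height q.2 ≤ h) →
      (Vanishes F T r w ↔ toP w ∈ Cons T r (c + K * h)) := by
  have hmul : ∀ τ ∈ allSubs T, Multilinear τ := by
    intro τ hτ
    obtain ⟨t, ht, hs⟩ := mem_allSubs.1 hτ
    exact multilinear_of_mem_subs (hT t ht) hs
  obtain ⟨A, _, _, _, _, a, hpres, hA, ha⟩ := exists_isPres T hT r
  obtain ⟨h₀, hh₀⟩ : ∃ h₀, ∀ p ∈ r, ∀ q ∈ p, height q.2 ≤ h₀ := by
    refine ⟨((r.flatMap id).map fun q => height q.2).sum, fun p hp q hq => ?_⟩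
    refine List.single_le_sum (by simp) _ (List.mem_map.2 ⟨q, ?_, rfl⟩)
    exact List.mem_flatMap.2 ⟨p, hp, hq⟩
  let K := 1 + (allSubs T).sup height
  have hK : ∀ τ ∈ allSubs T, height τ + 1 ≤ K := by
    intro τ hτ
    have := Finset.le_sup (f := height) hτ
    omega
  obtain ⟨N₁, hN₁⟩ := exists_base hpres (allSubs T) hmul h₀
  let N₀ := max N₁ h₀
  have hbase : ∀ S, Reach T S → Bd F T r a S h₀ N₀ := fun S hS w hw hwS =>
    DD_mono (le_max_left _ _) (hN₁ S (reach_sub hS) w hw hwS)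
  have hstep : ∀ j : ℕ, h₀ + j ≤ N₀ + (K + K) * j ∧
      ∀ S, Reach T S → Bd F T r a S (h₀ + j) (N₀ + (K + K) * j) := by
    intro j
    induction j with
    | zero => exact ⟨le_max_right _ _, hbase⟩
    | succ j ih =>
      have hK1 : 1 ≤ K := by omega
      refine ⟨?_, ?_⟩
      · have := ih.1
        rw [Nat.mul_succ]
        omega
      · have := step2 hpres hmul hcond hK hK1 ih.1
          (fun p hp q hq => (hh₀ p hp q hq).trans (by omega)) ih.2
        rw [Nat.mul_succ, ← add_assoc, ← add_assoc]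
        exact this
  refine ⟨N₀, K + K, fun h w hw => ?_⟩
  rw [vanishes_iff hpres hA ha]
  constructor
  · intro h0
    have hw' : toP w ∈ Tr F X (h₀ + h) := toP_mem_Tr w fun q hq => (hw q hq).trans (by omega)
    have := (hstep h).2 ∅ Reach.empty (toP w) hw' (by rw [h0]; exact zero_mem _)
    rwa [DD_empty] at this
  · intro h0
    exact (hpres.ker _).2 ⟨_, h0⟩

/-- Solvability of the word problem under the two-cover condition. -/
theorem solvable_of_twoCover (T : List (FreeMagma ℕ)) (hT : ∀ t ∈ T, Multilinear t)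
    (hcond : TwoCover T) (F : Type) [Field F] [Primcodable F]
    (hadd : Computable₂ fun a b : F => a + b) (hmul : Computable₂ fun a b : F => a * b) (n : ℕ)
    (r : List (Poly F (Fin n))) : Solvable F T r := by
  obtain ⟨c, K, h⟩ := exists_bound2 (F := F) hT hcond r
  exact solvable_of_bound hadd hmul T hT r c K h

end Pool.Agent.W_59b51d_h35
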