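import Pool.Agent.W_59b51d_h35.TwoChain
import Pool.Agent.W_59b51d_h18.SProd

/-!
# A linear map from the presented algebra to bounded polynomials
-/

namespace Pool.Agent.W_59b51d_h35

open Pool.Agent.W_59b51d_h18

variable {F : Type} [Field F] {X A : Type} [NonUnitalNonAssocRing A] [Module F A]
  [IsScalarTower F A A] [SMulCommClass F A A] {T : List (FreeMagma ℕ)} {r : List (Poly F X)}

omit [IsScalarTower F A A] [SMulCommClass F A A] in
/-- Values of members of `L` at monomials of bounded height have bounded height. -/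
theorem EE_le_Tr {L : Finset (FreeMagma ℕ)} {N K : ℕ} (hL : ∀ τ ∈ L, height τ ≤ K) :
    EE F X L N ≤ Tr F X (N + K) := by
  refine Submodule.span_le.2 ?_
  rintro _ ⟨τ, hτ, c, hc, rfl⟩
  refine tr_mem_Tr ((height_lift_le hc τ).trans ?_)
  have := hL τ hτ
  omega

theorem EE_union_le {L L' : Finset (FreeMagma ℕ)} {N : ℕ} :
    EE F X (L ∪ L') N ≤ EE F X L N ⊔ EE F X L' N := by
  refine Submodule.span_le.2 ?_
  rintro _ ⟨τ, hτ, c, hc, rfl⟩
  rcases Finset.mem_union.1 hτ with h | h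
  · exact Submodule.mem_sup_left (Submodule.subset_span ⟨τ, h, c, hc, rfl⟩)
  · exact Submodule.mem_sup_right (Submodule.subset_span ⟨τ, h, c, hc, rfl⟩)

/-- The map `ρ`. -/
theorem exists_rho {a : X → A} {h N K : ℕ} (hN : h ≤ N + K)
    (L1 L2 : Finset (Finset (FreeMagma ℕ)))
    (hh1 : ∀ L ∈ L1, ∀ τ ∈ L, height τ ≤ K) (hh2 : ∀ L ∈ L2, ∀ τ ∈ L, height τ ≤ K)
    (hc1 : ∀ L ∈ L1, ∀ L' ∈ L1, L ⊆ L' ∨ L' ⊆ L) (hc2 : ∀ L ∈ L2, ∀ L' ∈ L2, L ⊆ L' ∨ L' ⊆ L)
    (ih0 : Bd F T r a ∅ h N) (ih1 : ∀ L ∈ L1, Bd F T r a L h N)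
    (ih2 : ∀ L ∈ L2, Bd F T r a L h N)
    (ih12 : ∀ L ∈ L1, ∀ L' ∈ L2, Bd F T r a (L ∪ L') h N) :
    ∃ ρ : A →ₗ[F] NA F X, (∀ w ∈ Tr F X h, ρ (ev F a w) - w ∈ Cons T r N) ∧
      (∀ u, ρ u ∈ Tr F X (N + K)) ∧ (∀ L ∈ L1, ∀ u ∈ SS F A L, ρ u ∈ DD T r L N) ∧
      ∀ L ∈ L2, ∀ u ∈ SS F A L, ρ u ∈ DD T r L N := by
  classical
  let P : Finset (FreeMagma ℕ) → Submodule F A × Submodule F (Tr F X (N + K)) := fun L =>
    (SS F A L, (DD T r L N).comap (Tr F X (N + K)).subtype)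
  have hP : ∀ L L' : Finset (FreeMagma ℕ), L ⊆ L' → P L ≤ P L' := fun L L' h =>
    ⟨SS_mono h, Submodule.comap_mono (DD_subset h)⟩
  obtain ⟨ρ, h1, h2, h3⟩ := two_chain_ext_mod (F := F) (E := Tr F X h) (A := A)
    (M := Tr F X (N + K)) (L1.image P) (L2.image P)
    (by
      intro p hp q hq
      obtain ⟨L, hL, rfl⟩ := Finset.mem_image.1 hp
      obtain ⟨L', hL', rfl⟩ := Finset.mem_image.1 hq
      exact (hc1 L hL L' hL').imp (hP _ _) (hP _ _))
    (by
      intro p hp q hq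
      obtain ⟨L, hL, rfl⟩ := Finset.mem_image.1 hp
      obtain ⟨L', hL', rfl⟩ := Finset.mem_image.1 hq
      exact (hc2 L hL L' hL').imp (hP _ _) (hP _ _))
    ((ev F a).comp (Tr F X h).subtype) (Submodule.inclusion (Tr_mono hN))
    ((Cons T r N).comap (Tr F X (N + K)).subtype)
    (by
      intro p hp
      obtain ⟨L, hL, rfl⟩ := Finset.mem_image.1 hp
      exact Submodule.comap_mono Cons_le_DD)
    (by
      intro p hp
      obtain ⟨L, hL, rfl⟩ := Finset.mem_image.1 hp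
      exact Submodule.comap_mono Cons_le_DD)
    (by
      intro v hv
      have hv' : ev F a (v : NA F X) = 0 := hv
      have := ih0 v v.2 (by rw [hv']; exact zero_mem _)
      rw [DD_empty] at this
      exact this)
    (by
      intro p hp v hv
      obtain ⟨L, hL, rfl⟩ := Finset.mem_image.1 hp
      exact ih1 L hL v v.2 hv)
    (by
      intro p hp v hv
      obtain ⟨L, hL, rfl⟩ := Finset.mem_image.1 hp
      exact ih2 L hL v v.2 hv)
    (by
      intro p hp q hq v hv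
      obtain ⟨L, hL, rfl⟩ := Finset.mem_image.1 hp
      obtain ⟨L', hL', rfl⟩ := Finset.mem_image.1 hq
      have hv' : ev F a (v : NA F X) ∈ SS F A (L ∪ L') := by
        rw [SS_union]
        exact hv
      have h5 : (v : NA F X) ∈ DD T r (L ∪ L') N := ih12 L hL L' hL' v v.2 hv'
      obtain ⟨x, hx, y, hy, hxy⟩ := Submodule.mem_sup.1 h5
      obtain ⟨x1, hx1, x2, hx2, rfl⟩ := Submodule.mem_sup.1 (EE_union_le hx)
      have t1 : x1 ∈ Tr F X (N + K) := EE_le_Tr (hh1 L hL) hx1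
      have t2 : x2 ∈ Tr F X (N + K) := EE_le_Tr (hh2 L' hL') hx2
      have t3 : (v : NA F X) ∈ Tr F X (N + K) := Tr_mono hN v.2
      have t4 : x1 + y ∈ Tr F X (N + K) := by
        have : x1 + y = v - x2 := by rw [← hxy]; abel
        rw [this]
        exact sub_mem t3 t2
      have e : Submodule.inclusion (Tr_mono hN) v =
          (⟨x1 + y, t4⟩ : Tr F X (N + K)) + ⟨x2, t2⟩ := by
        apply Subtype.ext
        change (v : NA F X) = x1 + y + x2
        rw [← hxy]; abel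
      rw [e]
      refine Submodule.add_mem_sup ?_ ?_
      · change x1 + y ∈ DD T r L N
        exact Submodule.add_mem_sup hx1 hy
      · change x2 ∈ DD T r L' N
        exact Submodule.mem_sup_left hx2)
  refine ⟨(Tr F X (N + K)).subtype.comp ρ, fun w hw => ?_, fun u => (ρ u).2, fun L hL u hu => ?_,
    fun L hL u hu => ?_⟩
  · exact h1 ⟨w, hw⟩
  · exact h2 _ (Finset.mem_image.2 ⟨L, hL, rfl⟩) u hu
  · exact h3 _ (Finset.mem_image.2 ⟨L, hL, rfl⟩) u hu

end Pool.Agent.W_59b51d_h35
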