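import Pool.Agent.W_59b51d_h18.SChain

/-!
# Extension of linear maps which respect two chains of subspaces
-/

namespace Pool.Agent.W_59b51d_h35

open Pool.Agent.W_59b51d_h18

variable {F E A M : Type} [Field F] [AddCommGroup E] [Module F E] [AddCommGroup A] [Module F A]
  [AddCommGroup M] [Module F M]

/-- A nonempty finite chain has a greatest member. -/
theorem exists_top {α : Type} [PartialOrder α] (C : Finset α) (hne : C.Nonempty)
    (hch : ∀ p ∈ C, ∀ q ∈ C, p ≤ q ∨ q ≤ p) : ∃ m ∈ C, ∀ p ∈ C, p ≤ m := by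
  obtain ⟨m, hm⟩ := Finset.exists_maximal hne
  exact ⟨m, hm.1, fun p hp => (hch p hp m hm.1).elim id fun h => hm.2 hp h⟩

/-- A nonempty finite chain has a least member. -/
theorem exists_bot {α : Type} [PartialOrder α] (C : Finset α) (hne : C.Nonempty)
    (hch : ∀ p ∈ C, ∀ q ∈ C, p ≤ q ∨ q ≤ p) : ∃ m ∈ C, ∀ p ∈ C, m ≤ p := by
  obtain ⟨m, hm⟩ := Finset.exists_minimal hne
  exact ⟨m, hm.1, fun p hp => (hch m hm.1 p hp).elim id fun h => hm.2 hp h⟩

/-- Extension along a map `f`, with one chain of pairs of subspaces. -/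
theorem chain_ext (n : ℕ) : ∀ (C : Finset (Submodule F A × Submodule F M)), C.card = n →
    (∀ p ∈ C, ∀ q ∈ C, p ≤ q ∨ q ≤ p) →
    ∀ (f : E →ₗ[F] A) (g : E →ₗ[F] M) (E0 : Submodule F E) (R : Submodule F M)
      (U : Submodule F A), (∀ v ∈ E0, g v ∈ R) → (∀ v ∈ E0, f v ∈ U → g v = 0) →
      (∀ p ∈ C, ∀ v ∈ E0, f v ∈ U ⊔ p.1 → g v ∈ p.2) →
      ∃ r : A →ₗ[F] M, (∀ a, r a ∈ R) ∧ (∀ v ∈ E0, r (f v) = g v) ∧ (∀ u ∈ U, r u = 0) ∧
        ∀ p ∈ C, ∀ a ∈ p.1, r a ∈ p.2 := by
  classical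
  induction n with
  | zero =>
    intro C hC _ f g E0 R U hR hU _
    rw [Finset.card_eq_zero] at hC
    subst hC
    obtain ⟨r, h1, h2⟩ := exists_factor (E := E0 × U) (A := A) (H := M)
      ((f.comp E0.subtype).coprod U.subtype) ((g.comp E0.subtype).comp (LinearMap.fst F E0 U))
      (by
        rintro ⟨v, u⟩ h
        simp only [LinearMap.coprod_apply, LinearMap.comp_apply, Submodule.subtype_apply,
          LinearMap.fst_apply] at h ⊢
        refine hU v v.2 ?_
        rw [eq_neg_of_add_eq_zero_left h]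
        exact neg_mem u.2)
      R (by
        rintro ⟨v, u⟩
        exact hR v v.2)
    refine ⟨r, h2, fun v hv => ?_, fun u hu => ?_, fun p hp => absurd hp (Finset.notMem_empty p)⟩
    · have := h1 (⟨v, hv⟩, 0)
      simpa using this
    · have := h1 (0, ⟨u, hu⟩)
      simpa using this
  | succ n ih =>
    intro C hC hch f g E0 R U hR hU hp
    have hne : C.Nonempty := by
      rw [← Finset.card_pos, hC]; exact Nat.succ_pos n
    obtain ⟨m, hm, hmax⟩ := exists_top C hne hch
    obtain ⟨r', h1, h2, h3, h4⟩ := ih (C.erase m)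
      (by rw [Finset.card_erase_of_mem hm, hC]; rfl)
      (fun p hp q hq => hch p (Finset.mem_of_mem_erase hp) q (Finset.mem_of_mem_erase hq))
      f g (E0 ⊓ (U ⊔ m.1).comap f) (R ⊓ m.2) U
      (fun v hv => ⟨hR v hv.1, hp m hm v hv.1 hv.2⟩)
      (fun v hv h => hU v hv.1 h)
      (fun p hp' v hv h => hp p (Finset.mem_of_mem_erase hp') v hv.1 h)
    obtain ⟨r, h5, h6⟩ := exists_factor (E := E0 × (U ⊔ m.1 : Submodule F A)) (A := A) (H := M)
      ((f.comp E0.subtype).coprod (U ⊔ m.1 : Submodule F A).subtype)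
      ((g.comp E0.subtype).coprod (r'.comp (U ⊔ m.1 : Submodule F A).subtype))
      (by
        rintro ⟨v, u⟩ h
        simp only [LinearMap.coprod_apply, LinearMap.comp_apply, Submodule.subtype_apply] at h ⊢
        have hfv : f (v : E) = -(u : A) := eq_neg_of_add_eq_zero_left h
        have hmem : (v : E) ∈ E0 ⊓ (U ⊔ m.1).comap f := by
          refine ⟨v.2, ?_⟩
          change f (v : E) ∈ U ⊔ m.1
          rw [hfv]
          exact neg_mem u.2
        have := h2 _ hmem
        rw [← this, hfv, map_neg, neg_add_cancel])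
      R (by
        rintro ⟨v, u⟩
        simp only [LinearMap.coprod_apply, LinearMap.comp_apply, Submodule.subtype_apply]
        exact add_mem (hR v v.2) (h1 _).1)
    have hrU : ∀ u ∈ (U ⊔ m.1 : Submodule F A), r u = r' u := by
      intro u hu
      have := h5 (0, ⟨u, hu⟩)
      simpa using this
    refine ⟨r, h6, fun v hv => ?_, fun u hu => ?_, fun p hp' a ha => ?_⟩
    · have := h5 (⟨v, hv⟩, 0)
      simpa using this
    · rw [hrU u (Submodule.mem_sup_left hu)]
      exact h3 u hu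
    · rw [hrU a (Submodule.mem_sup_right ((hmax p hp').1 ha))]
      by_cases h : p = m
      · subst h
        exact (h1 a).2
      · exact h4 p (Finset.mem_erase.2 ⟨h, hp'⟩) a ha

/-- Extension along a map `f`, with two chains of pairs of subspaces. -/
theorem two_chain_ext (n : ℕ) : ∀ (C D : Finset (Submodule F A × Submodule F M)), C.card ≤ n →
    (∀ p ∈ C, ∀ q ∈ C, p ≤ q ∨ q ≤ p) → (∀ p ∈ D, ∀ q ∈ D, p ≤ q ∨ q ≤ p) →
    ∀ (f : E →ₗ[F] A) (g : E →ₗ[F] M) (U : Submodule F A), (∀ v, f v ∈ U → g v = 0) →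
      (∀ p ∈ C, ∀ v, f v ∈ U ⊔ p.1 → g v ∈ p.2) → (∀ q ∈ D, ∀ v, f v ∈ U ⊔ q.1 → g v ∈ q.2) →
      (∀ p ∈ C, ∀ q ∈ D, ∀ v, f v ∈ U ⊔ p.1 ⊔ q.1 → g v ∈ p.2 ⊔ q.2) →
      ∃ r : A →ₗ[F] M, (∀ v, r (f v) = g v) ∧ (∀ u ∈ U, r u = 0) ∧
        (∀ p ∈ C, ∀ a ∈ p.1, r a ∈ p.2) ∧ ∀ q ∈ D, ∀ a ∈ q.1, r a ∈ q.2 := by
  classical
  induction n with
  | zero =>
    intro C D hC _ hD f g U hU _ hq _
    rw [Nat.le_zero, Finset.card_eq_zero] at hC
    subst hC
    obtain ⟨r, -, h2, h3, h4⟩ := chain_ext _ D rfl hD f g ⊤ ⊤ U (fun _ _ => trivial)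
      (fun v _ => hU v) (fun p hp v _ => hq p hp v)
    exact ⟨r, fun v => h2 v trivial, h3, fun p hp => absurd hp (Finset.notMem_empty p), h4⟩
  | succ n ih =>
    intro C D hC hCch hD f g U hU hp hq hpq
    rcases C.eq_empty_or_nonempty with rfl | hne
    · obtain ⟨r, -, h2, h3, h4⟩ := chain_ext _ D rfl hD f g ⊤ ⊤ U (fun _ _ => trivial)
        (fun v _ => hU v) (fun p hp v _ => hq p hp v)
      exact ⟨r, fun v => h2 v trivial, h3, fun p hp => absurd hp (Finset.notMem_empty p), h4⟩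
    · obtain ⟨c, hc, hmin⟩ := exists_bot C hne hCch
      -- the projection onto `c.2`
      obtain ⟨π, p1, p2, p3⟩ := exists_retraction (F := F) (A := M) _ (D.image Prod.snd) rfl
        (by
          intro P hP Q hQ
          obtain ⟨p, hp, rfl⟩ := Finset.mem_image.1 hP
          obtain ⟨q, hq, rfl⟩ := Finset.mem_image.1 hQ
          exact (hD p hp q hq).imp (fun h => h.2) (fun h => h.2)) c.2
      have p3' : ∀ q ∈ D, ∀ x ∈ q.2, π x ∈ q.2 := fun q hq x hx =>
        p3 q.2 (Finset.mem_image.2 ⟨q, hq, rfl⟩) x hx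
      have hππ : ∀ x, π (x - π x) = 0 := fun x => by
        rw [map_sub, p2 _ (p1 x), sub_self]
      -- the part with values in `c.2`
      obtain ⟨rA, a1, a2, a3, a4⟩ := chain_ext (D.image fun q => (q.1, q.2 ⊓ c.2)).card
        (D.image fun q => (q.1, q.2 ⊓ c.2)) rfl
        (by
          intro P hP Q hQ
          obtain ⟨p, hp, rfl⟩ := Finset.mem_image.1 hP
          obtain ⟨q, hq, rfl⟩ := Finset.mem_image.1 hQ
          exact (hD p hp q hq).imp (fun h => ⟨h.1, inf_le_inf_right _ h.2⟩)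
            (fun h => ⟨h.1, inf_le_inf_right _ h.2⟩))
        f (π.comp g) ⊤ c.2 U (fun v _ => p1 _) (fun v _ h => by
          rw [LinearMap.comp_apply, hU v h, map_zero])
        (by
          intro P hP v _ h
          obtain ⟨q, hq', rfl⟩ := Finset.mem_image.1 hP
          exact ⟨p3' q hq' _ (hq q hq' v h), p1 _⟩)
      -- the part with values in the kernel of `π`
      obtain ⟨rB, b1, b2, b3, b4⟩ := ih
        ((C.erase c).image fun p => (p.1, p.2 ⊓ LinearMap.ker π))
        (D.image fun q => (q.1, q.2 ⊓ LinearMap.ker π))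
        (by
          refine Finset.card_image_le.trans ?_
          rw [Finset.card_erase_of_mem hc]
          omega)
        (by
          intro P hP Q hQ
          obtain ⟨p, hp, rfl⟩ := Finset.mem_image.1 hP
          obtain ⟨q, hq, rfl⟩ := Finset.mem_image.1 hQ
          exact (hCch p (Finset.mem_of_mem_erase hp) q (Finset.mem_of_mem_erase hq)).imp
            (fun h => ⟨h.1, inf_le_inf_right _ h.2⟩) (fun h => ⟨h.1, inf_le_inf_right _ h.2⟩))
        (by
          intro P hP Q hQ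
          obtain ⟨p, hp, rfl⟩ := Finset.mem_image.1 hP
          obtain ⟨q, hq, rfl⟩ := Finset.mem_image.1 hQ
          exact (hD p hp q hq).imp (fun h => ⟨h.1, inf_le_inf_right _ h.2⟩)
            (fun h => ⟨h.1, inf_le_inf_right _ h.2⟩))
        f (g - π.comp g) (U ⊔ c.1)
        (by
          intro v h
          have : g v ∈ c.2 := hp c hc v h
          rw [LinearMap.sub_apply, LinearMap.comp_apply, p2 _ this, sub_self])
        (by
          intro P hP v h
          obtain ⟨p, hp', rfl⟩ := Finset.mem_image.1 hP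
          have hpC := Finset.mem_of_mem_erase hp'
          have hcp := hmin p hpC
          rw [sup_assoc, sup_eq_right.2 hcp.1] at h
          refine ⟨?_, hππ (g v)⟩
          exact sub_mem (hp p hpC v h) (hcp.2 (p1 _)))
        (by
          intro P hP v h
          obtain ⟨q, hq', rfl⟩ := Finset.mem_image.1 hP
          refine ⟨?_, hππ (g v)⟩
          have h1 : g v ∈ c.2 ⊔ q.2 := hpq c hc q hq' v h
          obtain ⟨x, hx, y, hy, hxy⟩ := Submodule.mem_sup.1 h1
          change g v - π (g v) ∈ q.2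
          rw [← hxy, map_add, p2 x hx]
          have : x + y - (x + π y) = y - π y := by abel
          rw [this]
          exact sub_mem hy (p3' q hq' y hy))
        (by
          intro P hP Q hQ v h
          obtain ⟨p, hp', rfl⟩ := Finset.mem_image.1 hP
          obtain ⟨q, hq', rfl⟩ := Finset.mem_image.1 hQ
          have hpC := Finset.mem_of_mem_erase hp'
          have hcp := hmin p hpC
          rw [sup_assoc U c.1 p.1, sup_eq_right.2 hcp.1] at h
          have h1 : g v ∈ p.2 ⊔ q.2 := hpq p hpC q hq' v h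
          obtain ⟨x, hx, y, hy, hxy⟩ := Submodule.mem_sup.1 h1
          change g v - π (g v) ∈ _
          have : g v - π (g v) = (x - π x) + (y - π y) := by
            rw [← hxy, map_add]; abel
          rw [this]
          exact Submodule.add_mem_sup ⟨sub_mem hx (hcp.2 (p1 _)), hππ x⟩
            ⟨sub_mem hy (p3' q hq' y hy), hππ y⟩)
      refine ⟨rA + rB, fun v => ?_, fun u hu => ?_, fun p hp' a ha => ?_, fun q hq' a ha => ?_⟩
      · rw [LinearMap.add_apply, a2 v trivial, b1 v, LinearMap.comp_apply, LinearMap.sub_apply,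
          LinearMap.comp_apply]
        abel
      · rw [LinearMap.add_apply, a3 u hu, b2 u (Submodule.mem_sup_left hu), add_zero]
      · rw [LinearMap.add_apply]
        refine add_mem ((hmin p hp').2 (a1 a)) ?_
        by_cases h : p = c
        · subst h
          rw [b2 a (Submodule.mem_sup_right ha)]
          exact zero_mem _
        · exact (b3 _ (Finset.mem_image.2 ⟨p, Finset.mem_erase.2 ⟨h, hp'⟩, rfl⟩) a ha).1
      · rw [LinearMap.add_apply]
        exact add_mem (a4 _ (Finset.mem_image.2 ⟨q, hq', rfl⟩) a ha).1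
          (b4 _ (Finset.mem_image.2 ⟨q, hq', rfl⟩) a ha).1

/-- Extension along a map `f`, with two chains of pairs of subspaces, modulo a subspace `N0`. -/
theorem two_chain_ext_mod (C D : Finset (Submodule F A × Submodule F M))
    (hC : ∀ p ∈ C, ∀ q ∈ C, p ≤ q ∨ q ≤ p) (hD : ∀ p ∈ D, ∀ q ∈ D, p ≤ q ∨ q ≤ p)
    (f : E →ₗ[F] A) (g : E →ₗ[F] M) (N0 : Submodule F M) (hNC : ∀ p ∈ C, N0 ≤ p.2)
    (hND : ∀ p ∈ D, N0 ≤ p.2) (h0 : ∀ v, f v = 0 → g v ∈ N0)
    (hp : ∀ p ∈ C, ∀ v, f v ∈ p.1 → g v ∈ p.2) (hq : ∀ q ∈ D, ∀ v, f v ∈ q.1 → g v ∈ q.2)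
    (hpq : ∀ p ∈ C, ∀ q ∈ D, ∀ v, f v ∈ p.1 ⊔ q.1 → g v ∈ p.2 ⊔ q.2) :
    ∃ r : A →ₗ[F] M, (∀ v, r (f v) - g v ∈ N0) ∧
      (∀ p ∈ C, ∀ a ∈ p.1, r a ∈ p.2) ∧ ∀ q ∈ D, ∀ a ∈ q.1, r a ∈ q.2 := by
  classical
  obtain ⟨r, h1, -, h3, h4⟩ := two_chain_ext (F := F) (E := E) (A := A) (M := M ⧸ N0) _
    (C.image fun p => (p.1, p.2.map N0.mkQ)) (D.image fun p => (p.1, p.2.map N0.mkQ)) le_rfl
    (by
      intro P hP Q hQ
      obtain ⟨p, hp, rfl⟩ := Finset.mem_image.1 hP
      obtain ⟨q, hq, rfl⟩ := Finset.mem_image.1 hQ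
      exact (hC p hp q hq).imp (fun h => ⟨h.1, Submodule.map_mono h.2⟩)
        (fun h => ⟨h.1, Submodule.map_mono h.2⟩))
    (by
      intro P hP Q hQ
      obtain ⟨p, hp, rfl⟩ := Finset.mem_image.1 hP
      obtain ⟨q, hq, rfl⟩ := Finset.mem_image.1 hQ
      exact (hD p hp q hq).imp (fun h => ⟨h.1, Submodule.map_mono h.2⟩)
        (fun h => ⟨h.1, Submodule.map_mono h.2⟩))
    f (N0.mkQ.comp g) ⊥
    (by
      intro v h
      rw [LinearMap.comp_apply, Submodule.mkQ_apply, Submodule.Quotient.mk_eq_zero]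
      exact h0 v ((Submodule.mem_bot F).1 h))
    (by
      intro P hP v h
      obtain ⟨p, hp', rfl⟩ := Finset.mem_image.1 hP
      rw [bot_sup_eq] at h
      exact Submodule.mem_map_of_mem (hp p hp' v h))
    (by
      intro P hP v h
      obtain ⟨p, hp', rfl⟩ := Finset.mem_image.1 hP
      rw [bot_sup_eq] at h
      exact Submodule.mem_map_of_mem (hq p hp' v h))
    (by
      intro P hP Q hQ v h
      obtain ⟨p, hp', rfl⟩ := Finset.mem_image.1 hP
      obtain ⟨q, hq', rfl⟩ := Finset.mem_image.1 hQ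
      rw [bot_sup_eq] at h
      change _ ∈ p.2.map N0.mkQ ⊔ q.2.map N0.mkQ
      rw [← Submodule.map_sup]
      exact Submodule.mem_map_of_mem (hpq p hp' q hq' v h))
  obtain ⟨s, hs⟩ := LinearMap.exists_rightInverse_of_surjective N0.mkQ (Submodule.range_mkQ N0)
  have hs' : ∀ x, N0.mkQ (s x) = x := fun x => LinearMap.congr_fun hs x
  have key : ∀ (P : Submodule F M), N0 ≤ P → ∀ x, x ∈ P.map N0.mkQ → s x ∈ P := by
    intro P hP x hx
    obtain ⟨y, hy, rfl⟩ := hx
    have : s (N0.mkQ y) - y ∈ N0 := by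
      rw [← Submodule.Quotient.mk_eq_zero, Submodule.Quotient.mk_sub]
      have := hs' (N0.mkQ y)
      rw [Submodule.mkQ_apply] at this
      rw [this]
      exact sub_self _
    have h2 := add_mem (hP this) hy
    rwa [sub_add_cancel] at h2
  refine ⟨s.comp r, fun v => ?_, fun p hp' a ha => ?_, fun q hq' a ha => ?_⟩
  · rw [← Submodule.Quotient.mk_eq_zero, Submodule.Quotient.mk_sub]
    have h5 := hs' (r (f v))
    rw [Submodule.mkQ_apply] at h5
    rw [LinearMap.comp_apply, h5, h1 v]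
    exact sub_self _
  · exact key _ (hNC p hp') _ (h3 _ (Finset.mem_image.2 ⟨p, hp', rfl⟩) a ha)
  · exact key _ (hND q hq') _ (h4 _ (Finset.mem_image.2 ⟨q, hq', rfl⟩) a ha)

end Pool.Agent.W_59b51d_h35
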